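import Pool.Agent.W_7742c_h74.Arith

set_option autoImplicit false

noncomputable section

namespace Pool.Agent.H74E

lemma log3_bounds : (1.0952 : ℝ) < Real.log 3 ∧ Real.log 3 < 1.1023 := by
  have h1 : 2 * Real.log 3 = 3 * Real.log 2 + Real.log (9 / 8) := by
    have e1 : Real.log 9 = 2 * Real.log 3 := by
      rw [show (9 : ℝ) = 3 ^ 2 by norm_num, Real.log_pow]; norm_num
    have e2 : Real.log 8 = 3 * Real.log 2 := by
      rw [show (8 : ℝ) = 2 ^ 3 by norm_num, Real.log_pow]; norm_num
    rw [Real.log_div (by norm_num) (by norm_num), e1, e2]; ring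
  have h2 : 1 - (9 / 8 : ℝ)⁻¹ ≤ Real.log (9 / 8) := Real.one_sub_inv_le_log_of_pos (by norm_num)
  have h3 : Real.log (9 / 8) ≤ 9 / 8 - 1 := Real.log_le_sub_one_of_pos (by norm_num)
  have h4 := Real.log_two_gt_d9
  have h5 := Real.log_two_lt_d9
  norm_num at h2 h3
  constructor <;> linarith

lemma log5_bounds : (1.606 : ℝ) < Real.log 5 ∧ Real.log 5 < 1.612 := by
  have h1 : 2 * Real.log 5 = 3 * Real.log 2 + Real.log 3 + Real.log (25 / 24) := by
    have e1 : Real.log 25 = 2 * Real.log 5 := by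
      rw [show (25 : ℝ) = 5 ^ 2 by norm_num, Real.log_pow]; norm_num
    have e2 : Real.log 24 = 3 * Real.log 2 + Real.log 3 := by
      rw [show (24 : ℝ) = 2 ^ 3 * 3 by norm_num, Real.log_mul (by norm_num) (by norm_num),
        Real.log_pow]; norm_num
    rw [Real.log_div (by norm_num) (by norm_num), e1, e2]; ring
  have h2 : 1 - (25 / 24 : ℝ)⁻¹ ≤ Real.log (25 / 24) := Real.one_sub_inv_le_log_of_pos (by norm_num)
  have h3 : Real.log (25 / 24) ≤ 25 / 24 - 1 := Real.log_le_sub_one_of_pos (by norm_num)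
  have h4 := Real.log_two_gt_d9
  have h5 := Real.log_two_lt_d9
  obtain ⟨h6, h7⟩ := log3_bounds
  norm_num at h2 h3
  constructor <;> linarith

/-- The tangent line bound. -/
lemma log_tangent {v c : ℝ} (hv : 0 < v) (hc : 0 < c) : Real.log v ≤ v / c - 1 + Real.log c := by
  have h := Real.log_le_sub_one_of_pos (div_pos hv hc)
  rw [Real.log_div hv.ne' hc.ne'] at h
  linarith

lemma s5_bounds : (2.236 : ℝ) < √5 ∧ √5 < 2.2361 := by
  constructor
  · rw [show (2.236 : ℝ) = √(2.236 ^ 2) by rw [Real.sqrt_sq (by norm_num)]]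
    exact Real.sqrt_lt_sqrt (by norm_num) (by norm_num)
  · rw [show (2.2361 : ℝ) = √(2.2361 ^ 2) by rw [Real.sqrt_sq (by norm_num)]]
    exact Real.sqrt_lt_sqrt (by norm_num) (by norm_num)

/-- The auxiliary function. -/
lemma siegel_aux {y : ℝ} (h0 : 0 < y) (h1 : y ≠ 1) (h2 : y ^ 2 - 3 * y + 1 ≠ 0) :
    3 / 2 ≤ y - 3 / 5 * Real.log y - 4 / 5 * Real.log |y - 1| -
      3 / 10 * Real.log |y ^ 2 - 3 * y + 1| := by
  obtain ⟨s1, s2⟩ := s5_bounds
  have s5 : √5 ^ 2 = 5 := Real.sq_sqrt (by norm_num)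
  obtain ⟨l3, l3'⟩ := log3_bounds
  obtain ⟨l5, l5'⟩ := log5_bounds
  have l2 := Real.log_two_gt_d9
  have l2' := Real.log_two_lt_d9
  have hfac : y ^ 2 - 3 * y + 1 = (y - (3 - √5) / 2) * (y - (3 + √5) / 2) := by nlinarith
  have hr1 : y - (3 - √5) / 2 ≠ 0 := fun h => h2 (by rw [hfac, h, zero_mul])
  have hr2 : y - (3 + √5) / 2 ≠ 0 := fun h => h2 (by rw [hfac, h, mul_zero])
  have hlog : Real.log |y ^ 2 - 3 * y + 1| = Real.log |y - (3 - √5) / 2| +
      Real.log |y - (3 + √5) / 2| := by
    rw [hfac, abs_mul, Real.log_mul (abs_ne_zero.2 hr1) (abs_ne_zero.2 hr2)]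
  rw [hlog]
  have q6 : Real.log 6 = Real.log 2 + Real.log 3 := by
    rw [← Real.log_mul (by norm_num) (by norm_num)]; norm_num
  have q4 : Real.log 4 = 2 * Real.log 2 := by
    rw [show (4 : ℝ) = 2 ^ 2 by norm_num, Real.log_pow]; norm_num
  have q9 : Real.log 9 = 2 * Real.log 3 := by
    rw [show (9 : ℝ) = 3 ^ 2 by norm_num, Real.log_pow]; norm_num
  have q10 : Real.log 10 = Real.log 2 + Real.log 5 := by
    rw [← Real.log_mul (by norm_num) (by norm_num)]; norm_num
  have q12 : Real.log 12 = 2 * Real.log 2 + Real.log 3 := by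
    rw [← q4, ← Real.log_mul (by norm_num) (by norm_num)]; norm_num
  rcases lt_or_gt_of_ne hr1 with ha | ha
  · -- the first interval
    have e1 := log_tangent h0 (show (0 : ℝ) < 1 / 6 by norm_num)
    have e2 := log_tangent (show 0 < 1 - y by linarith) (show (0 : ℝ) < 5 / 6 by norm_num)
    have e3 := log_tangent (show 0 < (3 - √5) / 2 - y by linarith) (show (0 : ℝ) < 1 / 5 by norm_num)
    have e4 := log_tangent (show 0 < (3 + √5) / 2 - y by linarith) (show (0 : ℝ) < 5 / 2 by norm_num)
    rw [Real.log_div (by norm_num) (by norm_num), Real.log_one, q6] at e1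
    rw [Real.log_div (by norm_num) (by norm_num), q6] at e2
    rw [Real.log_div (by norm_num) (by norm_num), Real.log_one] at e3
    rw [Real.log_div (by norm_num) (by norm_num)] at e4
    rw [abs_sub_comm y 1, abs_of_pos (show 0 < 1 - y by linarith), abs_of_neg ha,
      abs_of_neg (show y - (3 + √5) / 2 < 0 by linarith), neg_sub, neg_sub]
    linarith
  rcases lt_or_gt_of_ne h1 with hb | hb
  · -- the second interval
    have e1 := log_tangent h0 (show (0 : ℝ) < 1 / 2 by norm_num)
    have e2 := log_tangent (show 0 < 1 - y by linarith) (show (0 : ℝ) < 1 / 2 by norm_num)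
    have e3 := log_tangent ha (show (0 : ℝ) < 1 / 6 by norm_num)
    have e4 := log_tangent (show 0 < (3 + √5) / 2 - y by linarith) (show (0 : ℝ) < 2 by norm_num)
    rw [Real.log_div (by norm_num) (by norm_num), Real.log_one] at e1
    rw [Real.log_div (by norm_num) (by norm_num), Real.log_one] at e2
    rw [Real.log_div (by norm_num) (by norm_num), Real.log_one, q6] at e3
    rw [abs_sub_comm y 1, abs_of_pos (show 0 < 1 - y by linarith), abs_of_pos ha,
      abs_of_neg (show y - (3 + √5) / 2 < 0 by linarith), neg_sub]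
    linarith
  rcases lt_or_gt_of_ne hr2 with hc | hc
  · -- the third interval
    have e1 := log_tangent h0 (show (0 : ℝ) < 2 by norm_num)
    have e2 := log_tangent (show 0 < y - 1 by linarith) (show (0 : ℝ) < 9 / 10 by norm_num)
    have e3 := log_tangent ha (show (0 : ℝ) < 3 / 2 by norm_num)
    have e4 := log_tangent (show 0 < (3 + √5) / 2 - y by linarith) (show (0 : ℝ) < 3 / 4 by norm_num)
    rw [Real.log_div (by norm_num) (by norm_num), q9, q10] at e2
    rw [Real.log_div (by norm_num) (by norm_num)] at e3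
    rw [Real.log_div (by norm_num) (by norm_num), q4] at e4
    rw [abs_of_pos (show 0 < y - 1 by linarith), abs_of_pos ha, abs_of_neg hc, neg_sub]
    linarith
  · -- the fourth interval
    have e1 := log_tangent h0 (show (0 : ℝ) < 10 / 3 by norm_num)
    have e2 := log_tangent (show 0 < y - 1 by linarith) (show (0 : ℝ) < 12 / 5 by norm_num)
    have e3 := log_tangent ha (show (0 : ℝ) < 3 by norm_num)
    have e4 := log_tangent hc (show (0 : ℝ) < 4 / 5 by norm_num)
    rw [Real.log_div (by norm_num) (by norm_num), q10] at e1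
    rw [Real.log_div (by norm_num) (by norm_num), q12] at e2
    rw [Real.log_div (by norm_num) (by norm_num), q4] at e4
    rw [abs_of_pos (show 0 < y - 1 by linarith), abs_of_pos ha, abs_of_pos hc]
    linarith

section field

variable {K : Type} [Field K] [NumberField K]

lemma sum_log_nonneg' {t : K} (ht : IsIntegral ℤ t) (h0 : t ≠ 0) {r : (K →+* ℂ) → ℝ}
    (hr : ∀ σ, ‖σ t‖ = |r σ|) : 0 ≤ ∑ σ : K →+* ℂ, Real.log |r σ| := by
  have h1 := prod_norm_ge ht h0
  simp only [hr] at h1
  have h2 := Real.log_nonneg h1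
  rwa [Real.log_prod (fun σ _ => by
    rw [← hr σ, norm_ne_zero_iff]
    simpa using h0)] at h2

/-- Siegel's bound for the trace of totally nonnegative algebraic integers. -/
lemma siegel {y : K} (hy : IsIntegral ℤ y) (h0 : y ≠ 0) (h1 : y ≠ 1) {r : (K →+* ℂ) → ℝ}
    (hr : ∀ σ, σ y = (r σ : ℂ)) (hpos : ∀ σ, 0 ≤ r σ) :
    3 / 2 * (Fintype.card (K →+* ℂ) : ℝ) ≤ ∑ σ : K →+* ℂ, r σ := by
  have hne : ∀ σ, r σ ≠ 0 := by
    intro σ h
    have := hr σ
    rw [h, Complex.ofReal_zero, map_eq_zero] at this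
    exact h0 this
  have hpos' : ∀ σ, 0 < r σ := fun σ => lt_of_le_of_ne (hpos σ) (hne σ).symm
  have l0 := sum_log_nonneg' hy h0 (r := r) (fun σ => by rw [hr σ, Complex.norm_real]; rfl)
  by_cases h2 : y ^ 2 - 3 * y + 1 = 0
  · -- the golden case
    have s5 : √5 ^ 2 = 5 := Real.sq_sqrt (by norm_num)
    obtain ⟨b1, b2⟩ := s5_bounds
    have hroot : ∀ σ, r σ ^ 2 - 3 * r σ + 1 = 0 := by
      intro σ
      have := congrArg σ h2
      rw [map_add, map_sub, map_mul, map_pow, map_one, map_ofNat, map_zero, hr σ] at this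
      exact_mod_cast this
    have hval : ∀ σ, r σ = 3 / 2 + √5 / (2 * Real.log ((3 + √5) / 2)) * Real.log |r σ| := by
      intro σ
      have hlpos : 0 < Real.log ((3 + √5) / 2) := Real.log_pos (by linarith)
      have hprod : (r σ - (3 + √5) / 2) * (r σ - (3 - √5) / 2) = 0 := by
        have := hroot σ
        nlinarith
      rcases mul_eq_zero.1 hprod with h | h
      · have e : r σ = (3 + √5) / 2 := by linarith
        rw [abs_of_pos (hpos' σ), e]
        field_simp
      · have e : r σ = (3 - √5) / 2 := by linarith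
        have e2 : (3 - √5) / 2 = ((3 + √5) / 2)⁻¹ :=
          eq_inv_of_mul_eq_one_left (by nlinarith)
        rw [abs_of_pos (hpos' σ), e]
        have e3 : Real.log ((3 - √5) / 2) = -Real.log ((3 + √5) / 2) := by
          rw [e2, Real.log_inv]
        rw [e3]
        field_simp
        ring
    have hsum : ∑ σ : K →+* ℂ, r σ = 3 / 2 * (Fintype.card (K →+* ℂ) : ℝ) +
        √5 / (2 * Real.log ((3 + √5) / 2)) * ∑ σ : K →+* ℂ, Real.log |r σ| := by
      rw [Finset.mul_sum]
      conv_lhs => rw [Finset.sum_congr rfl fun σ _ => hval σ]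
      rw [Finset.sum_add_distrib, Finset.sum_const, Finset.card_univ, nsmul_eq_mul]
      ring
    rw [hsum]
    have hlpos : 0 < Real.log ((3 + √5) / 2) := Real.log_pos (by linarith)
    have : 0 ≤ √5 / (2 * Real.log ((3 + √5) / 2)) := by positivity
    nlinarith
  · have hone : ∀ σ, r σ ≠ 1 := by
      intro σ h
      have := hr σ
      rw [h, Complex.ofReal_one] at this
      exact h1 (σ.injective (by rw [this, map_one]))
    have hgold : ∀ σ, r σ ^ 2 - 3 * r σ + 1 ≠ 0 := by
      intro σ h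
      apply h2
      apply σ.injective
      rw [map_add, map_sub, map_mul, map_pow, map_one, map_ofNat, map_zero, hr σ]
      exact_mod_cast h
    have l1 := sum_log_nonneg' (hy.sub isIntegral_one) (sub_ne_zero.2 h1) (r := fun σ => r σ - 1)
      (fun σ => by
        rw [map_sub, map_one, hr σ, show ((r σ : ℂ) - 1) = ((r σ - 1 : ℝ) : ℂ) by push_cast; rfl,
          Complex.norm_real]; rfl)
    have h3 : IsIntegral ℤ (3 : K) := by
      have := isIntegral_algebraMap (R := ℤ) (A := K) (x := 3)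
      simpa using this
    have l2 := sum_log_nonneg' (((hy.pow 2).sub (h3.mul hy)).add isIntegral_one) h2
      (r := fun σ => r σ ^ 2 - 3 * r σ + 1) (fun σ => by
        rw [map_add, map_sub, map_mul, map_pow, map_one, map_ofNat, hr σ,
          show ((r σ : ℂ) ^ 2 - 3 * (r σ : ℂ) + 1) = ((r σ ^ 2 - 3 * r σ + 1 : ℝ) : ℂ) by
            push_cast; rfl, Complex.norm_real]; rfl)
    have hsum : ∑ _σ : K →+* ℂ, (3 / 2 : ℝ) ≤ ∑ σ : K →+* ℂ, (r σ - 3 / 5 * Real.log (r σ) -
        4 / 5 * Real.log |r σ - 1| - 3 / 10 * Real.log |r σ ^ 2 - 3 * r σ + 1|) :=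
      Finset.sum_le_sum fun σ _ => siegel_aux (hpos' σ) (hone σ) (hgold σ)
    rw [Finset.sum_const, Finset.card_univ, nsmul_eq_mul, Finset.sum_sub_distrib,
      Finset.sum_sub_distrib, Finset.sum_sub_distrib, ← Finset.mul_sum, ← Finset.mul_sum,
      ← Finset.mul_sum] at hsum
    have l0' : 0 ≤ ∑ σ : K →+* ℂ, Real.log (r σ) := by
      simpa only [Real.log_abs] using l0
    linarith

end field

end Pool.Agent.H74E
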