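import Pool.Agent.W_7742c_h74.Landau

set_option autoImplicit false

noncomputable section

namespace Pool.Agent.H74E

open MeasureTheory ProbabilityTheory Set Filter
open scoped Topology ENNReal NNReal

/-- Analyticity of Mellin type transforms. -/
theorem mellin_analytic (B : ℝ → ℝ) (hB : Measurable B) (h0 : ∀ t, 1 < t → 0 ≤ B t) (σ0 : ℝ)
    (hint : ∀ σ : ℝ, σ0 < σ → IntegrableOn (fun t : ℝ => B t * t ^ (-(σ + 1))) (Set.Ioi 1)) :
    ∀ σ : ℝ, σ0 < σ → AnalyticAt ℝ (fun σ => ∫ t in Set.Ioi (1 : ℝ), B t * t ^ (-(σ + 1))) σ := by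
  set ν : Measure ℝ := (volume.restrict (Ioi 1)).withDensity
    (fun t => ENNReal.ofReal (B t * t⁻¹)) with hν
  have hden : Measurable (fun t : ℝ => ENNReal.ofReal (B t * t⁻¹)) :=
    (hB.mul measurable_inv).ennreal_ofReal
  have hpt : ∀ σ : ℝ, ∀ᵐ t ∂(volume.restrict (Ioi (1 : ℝ))),
      (ENNReal.ofReal (B t * t⁻¹)).toReal • Real.exp (σ * (-Real.log t)) =
        B t * t ^ (-(σ + 1)) := by
    intro σ
    filter_upwards [ae_restrict_mem measurableSet_Ioi] with t ht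
    have ht1 : (1 : ℝ) < t := ht
    have ht0 : (0 : ℝ) < t := by linarith
    rw [ENNReal.toReal_ofReal (mul_nonneg (h0 t ht1) (inv_nonneg.2 ht0.le)), smul_eq_mul,
      Real.rpow_def_of_pos ht0, mul_assoc]
    congr 1
    rw [← Real.exp_log ht0, ← Real.exp_neg, ← Real.exp_add, Real.log_exp]
    congr 1
    ring
  have hI : ∀ σ : ℝ, Integrable (fun t => Real.exp (σ * (-Real.log t))) ν ↔
      IntegrableOn (fun t : ℝ => B t * t ^ (-(σ + 1))) (Set.Ioi 1) := by
    intro σ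
    rw [hν, integrable_withDensity_iff_integrable_smul' hden
      (by filter_upwards with t using ENNReal.ofReal_lt_top)]
    exact integrable_congr (hpt σ)
  have hM : ∀ σ : ℝ, mgf (fun t => -Real.log t) ν σ =
      ∫ t in Set.Ioi (1 : ℝ), B t * t ^ (-(σ + 1)) := by
    intro σ
    rw [mgf, hν, integral_withDensity_eq_integral_toReal_smul hden
      (by filter_upwards with t using ENNReal.ofReal_lt_top)]
    exact integral_congr_ae (hpt σ)
  intro σ hσ
  have hmem : σ ∈ interior (integrableExpSet (fun t => -Real.log t) ν) := by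
    rw [mem_interior]
    exact ⟨Ioi σ0, fun τ hτ => (hI τ).2 (hint τ hτ), isOpen_Ioi, hσ⟩
  have := analyticAt_mgf hmem
  refine this.congr ?_
  filter_upwards with τ using hM τ

/-- The integral `∫ {t} t^{-s-1}`. -/
def MM (s : ℝ) : ℝ := ∫ t in Set.Ioi (1 : ℝ), Int.fract t * t ^ (-(s + 1))

lemma rpow_int {s : ℝ} (hs : 0 < s) : IntegrableOn (fun t : ℝ => t ^ (-(s + 1))) (Set.Ioi 1) :=
  integrableOn_Ioi_rpow_of_lt (by linarith) one_pos

lemma fract_int {s : ℝ} (hs : 0 < s) :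
    IntegrableOn (fun t : ℝ => Int.fract t * t ^ (-(s + 1))) (Set.Ioi 1) := by
  refine (rpow_int hs).mono' ?_ ?_
  · exact (measurable_fract.mul (measurable_id.pow_const _)).aestronglyMeasurable
  · filter_upwards [ae_restrict_mem measurableSet_Ioi] with t ht
    have ht1 : (1 : ℝ) < t := ht
    have h1 : (0 : ℝ) ≤ t ^ (-(s + 1)) := by positivity
    rw [norm_mul, Real.norm_of_nonneg h1, Real.norm_of_nonneg (Int.fract_nonneg t)]
    calc Int.fract t * t ^ (-(s + 1)) ≤ 1 * t ^ (-(s + 1)) :=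
          mul_le_mul_of_nonneg_right (Int.fract_lt_one t).le h1
      _ = _ := one_mul _

lemma MM_analytic {s : ℝ} (hs : 0 < s) : AnalyticAt ℝ MM s :=
  mellin_analytic Int.fract measurable_fract (fun t _ => Int.fract_nonneg t) 0
    (fun _ h => fract_int h) s hs

lemma MM_nonneg {s : ℝ} : 0 ≤ MM s := by
  unfold MM
  refine setIntegral_nonneg measurableSet_Ioi fun t ht => ?_
  have ht1 : (1 : ℝ) < t := ht
  have h1 : (0 : ℝ) ≤ t ^ (-(s + 1)) := by positivity
  exact mul_nonneg (Int.fract_nonneg t) h1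

lemma MM_le {s : ℝ} (hs : 0 < s) : MM s ≤ 1 / s := by
  have h1 : ∫ t in Set.Ioi (1 : ℝ), t ^ (-(s + 1)) = 1 / s := by
    rw [integral_Ioi_rpow_of_lt (by linarith) one_pos, Real.one_rpow,
      show -(s + 1) + 1 = -s by ring, neg_div_neg_eq]
  rw [← h1]
  unfold MM
  refine setIntegral_mono_on (fract_int hs) (rpow_int hs) measurableSet_Ioi fun t ht => ?_
  have ht1 : (1 : ℝ) < t := ht
  have h1 : (0 : ℝ) ≤ t ^ (-(s + 1)) := by positivity
  calc Int.fract t * t ^ (-(s + 1)) ≤ 1 * t ^ (-(s + 1)) :=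
        mul_le_mul_of_nonneg_right (Int.fract_lt_one t).le h1
    _ = _ := one_mul _

lemma term_eq (n : ℕ) (s : ℝ) : ZetaAsymptotics.term (n + 1) s =
    ∫ t in ((n : ℝ) + 1)..((n + 1 : ℕ) : ℝ) + 1, Int.fract t * t ^ (-(s + 1)) := by
  unfold ZetaAsymptotics.term
  push_cast
  rw [intervalIntegral.integral_of_le (by linarith), intervalIntegral.integral_of_le (by linarith),
    integral_Ioc_eq_integral_Ioo, integral_Ioc_eq_integral_Ioo]
  refine setIntegral_congr_fun measurableSet_Ioo fun t ht => ?_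
  have hf : Int.fract t = t - (n + 1) := by
    rw [Int.fract_eq_iff]
    refine ⟨by linarith [ht.1], by linarith [ht.2], n + 1, by push_cast; ring⟩
  have ht0 : (0 : ℝ) < t := by
    have : (0 : ℝ) ≤ n := Nat.cast_nonneg n
    linarith [ht.1]
  change (t - ((n : ℝ) + 1)) / t ^ (s + 1) = Int.fract t * t ^ (-(s + 1))
  rw [hf, Real.rpow_neg ht0.le]
  rfl

lemma MM_eq {s : ℝ} (hs : 0 < s) : MM s = ZetaAsymptotics.termTSum s := by
  symm
  unfold ZetaAsymptotics.termTSum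
  apply HasSum.tsum_eq
  rw [hasSum_iff_tendsto_nat_of_nonneg (fun n => ZetaAsymptotics.term_nonneg (n + 1) s)]
  have hint : ∀ a b : ℝ, 1 ≤ a → 1 ≤ b →
      IntervalIntegrable (fun t : ℝ => Int.fract t * t ^ (-(s + 1))) volume a b := by
    intro a b ha hb
    rw [intervalIntegrable_iff]
    refine (fract_int hs).mono_set ?_
    intro t ht
    rw [Set.uIoc, Set.mem_Ioc] at ht
    exact lt_of_le_of_lt (le_min ha hb) ht.1
  have hsum : ∀ N : ℕ, ∑ n ∈ Finset.range N, ZetaAsymptotics.term (n + 1) s =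
      ∫ t in (1 : ℝ)..((N : ℝ) + 1), Int.fract t * t ^ (-(s + 1)) := by
    intro N
    have h := intervalIntegral.sum_integral_adjacent_intervals
      (f := fun t : ℝ => Int.fract t * t ^ (-(s + 1))) (μ := volume) (a := fun k : ℕ => (k : ℝ) + 1)
      (n := N) (fun k _ => hint _ _ (by simp) (by push_cast; linarith [(Nat.cast_nonneg k : (0:ℝ) ≤ k)]))
    simp only [Nat.cast_zero, zero_add] at h
    rw [← h]
    exact Finset.sum_congr rfl fun n _ => term_eq n s
  simp only [hsum]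
  exact intervalIntegral_tendsto_integral_Ioi _ (fract_int hs)
    (tendsto_atTop_add_const_right _ _ tendsto_natCast_atTop_atTop)

/-- The function `(s - 1) ζ(s)` for real `s > 0`. -/
def z1 (s : ℝ) : ℝ := s * (1 + (1 - s) * MM s)

lemma z1_analytic {s : ℝ} (hs : 0 < s) : AnalyticAt ℝ z1 s := by
  have h1 := MM_analytic hs
  have h2 : AnalyticAt ℝ (fun x : ℝ => x) s := analyticAt_id
  exact h2.mul (analyticAt_const.add ((analyticAt_const.sub h2).mul h1))

lemma z1_pos {s : ℝ} (hs : 0 < s) : 0 < z1 s := by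
  unfold z1
  refine mul_pos hs ?_
  rcases le_total s 1 with h | h
  · have := mul_nonneg (sub_nonneg.2 h) (MM_nonneg (s := s))
    linarith
  · have h1 : (s - 1) * MM s ≤ (s - 1) * (1 / s) :=
      mul_le_mul_of_nonneg_left (MM_le hs) (by linarith)
    have h2 : (s - 1) * (1 / s) = 1 - 1 / s := by field_simp
    have h3 : 0 < 1 / s := by positivity
    nlinarith

lemma z1_eq {s : ℝ} (hs : 1 < s) : z1 s = (s - 1) * ∑' n : ℕ, 1 / (n + 1 : ℝ) ^ s := by
  unfold z1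
  rw [MM_eq (by linarith), ZetaAsymptotics.termTSum_of_lt hs]
  have h1 : s - 1 ≠ 0 := by linarith
  have h2 : s ≠ 0 := by linarith
  field_simp
  ring

/-- The weights `1 / (k p ^ (k s))` for the prime powers, `k = x.2 + 1`. -/
def pk (s : ℝ) (x : Nat.Primes × ℕ) : ℝ :=
  ((x.2 : ℝ) + 1)⁻¹ * Real.exp (-(s * (((x.2 : ℝ) + 1) * Real.log x.1)))

lemma pk_nonneg (s : ℝ) (x : Nat.Primes × ℕ) : 0 ≤ pk s x := by
  unfold pk
  positivity

lemma pk_eq (s : ℝ) (p : Nat.Primes) (k : ℕ) :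
    pk s (p, k) = (((p : ℕ) : ℝ) ^ (-s)) ^ (k + 1) / ((k : ℝ) + 1) := by
  unfold pk
  have hp : (0 : ℝ) < ((p : ℕ) : ℝ) := by exact_mod_cast p.2.pos
  rw [← Real.rpow_natCast, ← Real.rpow_mul hp.le, Real.rpow_def_of_pos hp, div_eq_inv_mul]
  congr 2
  push_cast
  ring

lemma prime_pow_lt {s : ℝ} (hs : 0 < s) (p : Nat.Primes) : ((p : ℕ) : ℝ) ^ (-s) < 1 :=
  Real.rpow_lt_one_of_one_lt_of_neg (by exact_mod_cast p.2.one_lt) (by linarith)

lemma prime_pow_pos (s : ℝ) (p : Nat.Primes) : 0 < ((p : ℕ) : ℝ) ^ (-s) :=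
  Real.rpow_pos_of_pos (by exact_mod_cast p.2.pos) _

lemma hasSum_pk {s : ℝ} (hs : 0 < s) (p : Nat.Primes) :
    HasSum (fun k => pk s (p, k)) (-Real.log (1 - ((p : ℕ) : ℝ) ^ (-s))) := by
  simp only [pk_eq]
  exact Real.hasSum_pow_div_log_of_abs_lt_one (by
    rw [abs_of_pos (prime_pow_pos s p)]; exact prime_pow_lt hs p)

lemma neg_log_le {s : ℝ} (hs : 1 < s) (p : Nat.Primes) :
    -Real.log (1 - ((p : ℕ) : ℝ) ^ (-s)) ≤ 2 * ((p : ℕ) : ℝ) ^ (-s) := by
  have h2 : ((p : ℕ) : ℝ) ^ (-s) ≤ 1 / 2 := by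
    have hp : (2 : ℝ) ≤ ((p : ℕ) : ℝ) := by exact_mod_cast p.2.two_le
    calc ((p : ℕ) : ℝ) ^ (-s) ≤ (2 : ℝ) ^ (-s) :=
          Real.rpow_le_rpow_of_nonpos (by norm_num) hp (by linarith)
      _ ≤ (2 : ℝ) ^ (-1 : ℝ) := Real.rpow_le_rpow_of_exponent_le (by norm_num) (by linarith)
      _ = 1 / 2 := by rw [Real.rpow_neg_one]; norm_num
  have h0 := prime_pow_pos s p
  set x := ((p : ℕ) : ℝ) ^ (-s)
  have h3 : 1 - (1 - x)⁻¹ ≤ Real.log (1 - x) := Real.one_sub_inv_le_log_of_pos (by linarith)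
  have h4 : (1 - x)⁻¹ ≤ 1 + 2 * x := by
    rw [inv_le_iff_one_le_mul₀ (by linarith)]
    nlinarith
  linarith

lemma summable_primes_rpow {s : ℝ} (hs : 1 < s) :
    Summable fun p : Nat.Primes => ((p : ℕ) : ℝ) ^ (-s) :=
  Nat.Primes.summable_rpow.2 (by linarith)

lemma summable_pk {s : ℝ} (hs : 1 < s) : Summable (pk s) := by
  have h0 : 0 < s := by linarith
  rw [summable_prod_of_nonneg (fun x => pk_nonneg s x)]
  refine ⟨fun p => (hasSum_pk h0 p).summable, ?_⟩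
  simp only [(hasSum_pk h0 _).tsum_eq]
  refine Summable.of_nonneg_of_le (fun p => ?_) (fun p => neg_log_le hs p)
    ((summable_primes_rpow hs).mul_left 2)
  have := (hasSum_pk h0 p).nonneg fun k => pk_nonneg s (p, k)
  exact this

lemma tsum_pk {s : ℝ} (hs : 1 < s) :
    Real.exp (∑' x, pk s x) = ∑' n : ℕ, 1 / (n + 1 : ℝ) ^ s := by
  have h0 : 0 < s := by linarith
  have hsum := summable_pk hs
  rw [hsum.tsum_prod]
  simp only [(hasSum_pk h0 _).tsum_eq]
  have hc := riemannZeta_eulerProduct_exp_log (s := (s : ℂ)) (by simpa using hs)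
  rw [zeta_eq_tsum_one_div_nat_add_one_cpow (by simpa using hs)] at hc
  have e1 : ∀ p : Nat.Primes, -Complex.log (1 - ((p : ℕ) : ℂ) ^ (-(s : ℂ))) =
      ((-Real.log (1 - ((p : ℕ) : ℝ) ^ (-s)) : ℝ) : ℂ) := by
    intro p
    have hp : (0 : ℝ) ≤ ((p : ℕ) : ℝ) := by positivity
    have e : ((p : ℕ) : ℂ) ^ (-(s : ℂ)) = ((((p : ℕ) : ℝ) ^ (-s) : ℝ) : ℂ) := by
      rw [Complex.ofReal_cpow hp]
      push_cast
      rfl
    rw [e]
    have h1 : (0 : ℝ) ≤ 1 - ((p : ℕ) : ℝ) ^ (-s) := by linarith [prime_pow_lt h0 p]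
    rw [Complex.ofReal_neg, Complex.ofReal_log h1]
    push_cast
    rfl
  have e2 : ∀ n : ℕ, 1 / ((n : ℂ) + 1) ^ (s : ℂ) = ((1 / ((n : ℝ) + 1) ^ s : ℝ) : ℂ) := by
    intro n
    have hp : (0 : ℝ) ≤ (n : ℝ) + 1 := by positivity
    rw [Complex.ofReal_div, Complex.ofReal_cpow hp]
    push_cast
    rfl
  simp only [e1, e2, ← Complex.ofReal_tsum, ← Complex.ofReal_exp] at hc
  exact_mod_cast hc

lemma z1_pk {s : ℝ} (hs : 1 < s) : z1 s = (s - 1) * Real.exp (∑' x, pk s x) := by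
  rw [z1_eq hs, tsum_pk hs]

end Pool.Agent.H74E
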