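import Pool.Agent.W_7742c_h74.Zeta

set_option autoImplicit false

noncomputable section

namespace Pool.Agent.H74E

open MeasureTheory ProbabilityTheory Set Filter
open scoped Topology ENNReal NNReal

/-- Analyticity of general Dirichlet series with nonnegative coefficients. -/
theorem dirichlet_analytic {J : Type} [Countable J] (w : J → ℝ) (hw : ∀ j, 0 ≤ w j) (l : J → ℝ)
    (σ0 : ℝ) (hs : ∀ σ : ℝ, σ0 < σ → Summable fun j => w j * Real.exp (-(σ * l j))) :
    ∀ σ : ℝ, σ0 < σ → AnalyticAt ℝ (fun σ => ∑' j, w j * Real.exp (-(σ * l j))) σ := by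
  classical
  let _ : MeasurableSpace J := ⊤
  have hms : MeasurableSingletonClass J := ⟨fun _ => trivial⟩
  set μ : Measure J := (Measure.count).withDensity (fun j => ENNReal.ofReal (w j)) with hμ
  have hden : Measurable (fun j : J => ENNReal.ofReal (w j)) := fun _ _ => trivial
  have hI : ∀ σ : ℝ, Integrable (fun j => Real.exp (σ * (-l j))) μ ↔
      Summable fun j => w j * Real.exp (-(σ * l j)) := by
    intro σ
    rw [hμ, integrable_withDensity_iff_integrable_smul' hden
      (by filter_upwards with t using ENNReal.ofReal_lt_top), integrable_count_iff]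
    refine summable_congr fun j => ?_
    rw [ENNReal.toReal_ofReal (hw j), smul_eq_mul, mul_neg, Real.norm_of_nonneg
      (mul_nonneg (hw j) (Real.exp_pos _).le)]
  have hM : ∀ σ : ℝ, σ0 < σ → mgf (fun j => -l j) μ σ =
      ∑' j, w j * Real.exp (-(σ * l j)) := by
    intro σ hσ
    have h1 := (hI σ).2 (hs σ hσ)
    rw [hμ, integrable_withDensity_iff_integrable_smul' hden
      (by filter_upwards with t using ENNReal.ofReal_lt_top)] at h1
    rw [mgf, hμ, integral_withDensity_eq_integral_toReal_smul hden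
      (by filter_upwards with t using ENNReal.ofReal_lt_top), integral_countable h1]
    refine tsum_congr fun j => ?_
    rw [ENNReal.toReal_ofReal (hw j), smul_eq_mul, mul_neg]
    simp [Measure.real]
  intro σ hσ
  have hmem : σ ∈ interior (integrableExpSet (fun j => -l j) μ) := by
    rw [mem_interior]
    exact ⟨Ioi σ0, fun τ hτ => (hI τ).2 (hs τ hτ), isOpen_Ioi, hσ⟩
  refine (analyticAt_mgf hmem).congr ?_
  filter_upwards [Ioi_mem_nhds hσ] with τ hτ using hM τ hτ

lemma mul_pk (c : Nat.Primes × ℕ → ℝ) (s : ℝ) (x : Nat.Primes × ℕ) : c x * pk s x =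
    (c x * ((x.2 : ℝ) + 1)⁻¹) * Real.exp (-(s * (((x.2 : ℝ) + 1) * Real.log x.1))) := by
  unfold pk
  ring

lemma log_nonneg' (x : Nat.Primes × ℕ) : 0 ≤ ((x.2 : ℝ) + 1) * Real.log x.1 := by
  have : (1 : ℝ) ≤ ((x.1 : ℕ) : ℝ) := by exact_mod_cast x.1.2.one_lt.le
  exact mul_nonneg (by positivity) (Real.log_nonneg this)

/-- The positivity theorem. -/
theorem positivity {σ0 : ℝ} (h0 : 0 ≤ σ0) (h1 : σ0 ≤ 1) (d : ℕ) (c b : Nat.Primes × ℕ → ℝ)
    (hc : ∀ x, 0 ≤ c x) (hb : ∀ x, 0 ≤ b x)
    (hbs : ∀ s, σ0 < s → Summable fun x => b x * pk s x)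
    (hcs : ∀ s, 1 < s → Summable fun x => c x * pk s x)
    (g : ℝ → ℝ) (hg : ∀ s, σ0 < s → AnalyticAt ℝ g s)
    (hgs : ∀ s, 1 < s → g s = (s - 1) ^ d * Real.exp (∑' x, (c x + d - d * b x) * pk s x)) :
    ∀ s, σ0 < s → (Summable fun x => c x * pk s x) ∧
      g s / z1 s ^ d * Real.exp (d * ∑' x, b x * pk s x) = Real.exp (∑' x, c x * pk s x) := by
  have hBan : ∀ s, σ0 < s → AnalyticAt ℝ (fun s => ∑' x, b x * pk s x) s := by
    intro s hs
    simp only [mul_pk]
    refine dirichlet_analytic _ (fun x => mul_nonneg (hb x) (by positivity)) _ σ0 ?_ s hs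
    intro τ hτ
    have := hbs τ hτ
    simpa only [mul_pk] using this
  set E : ℝ → ℝ := fun s => g s / z1 s ^ d * Real.exp (d * ∑' x, b x * pk s x) with hE
  have hEan : ∀ s, σ0 < s → AnalyticAt ℝ E s := by
    intro s hs
    have hs0 : 0 < s := by linarith
    have hz := (z1_analytic hs0).pow d
    exact ((hg s hs).div hz (pow_ne_zero _ (z1_pos hs0).ne')).mul
      ((analyticAt_const.mul (hBan s hs)).rexp)
  have key := landau_series (fun x => c x * ((x.2 : ℝ) + 1)⁻¹)
    (fun x => mul_nonneg (hc x) (by positivity)) (fun x => ((x.2 : ℝ) + 1) * Real.log x.1)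
    log_nonneg' E σ0 1 hEan
    (by
      intro s hs
      have := hcs s hs
      simpa only [mul_pk] using this)
    (by
      intro s hs
      have e1 := hcs s hs
      have e2 := hbs s (by linarith)
      have e3 := summable_pk hs
      have hsum : ∑' x, (c x + d - d * b x) * pk s x =
          ∑' x, c x * pk s x + d * ∑' x, pk s x - d * ∑' x, b x * pk s x := by
        rw [← tsum_mul_left, ← tsum_mul_left, ← e1.tsum_add (e3.mul_left _),
          ← (e1.add (e3.mul_left _)).tsum_sub (e2.mul_left _)]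
        refine tsum_congr fun x => ?_
        ring
      rw [hE]
      simp only
      rw [hgs s hs, hsum, z1_pk hs, mul_pow, ← Real.exp_nat_mul]
      have hne : (s - 1) ^ d ≠ 0 := pow_ne_zero _ (by linarith)
      rw [mul_div_mul_left _ _ hne, ← Real.exp_sub, ← Real.exp_add]
      congr 1
      have : ∑' x, c x * pk s x = ∑' x : Nat.Primes × ℕ, c x * ((x.2 : ℝ) + 1)⁻¹ *
          Real.exp (-(s * (((x.2 : ℝ) + 1) * Real.log x.1))) := tsum_congr fun x => mul_pk c s x
      rw [← this]
      ring)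
  intro s hs
  obtain ⟨k1, k2⟩ := key s hs
  have e : ∑' x, c x * pk s x = ∑' x : Nat.Primes × ℕ, c x * ((x.2 : ℝ) + 1)⁻¹ *
      Real.exp (-(s * (((x.2 : ℝ) + 1) * Real.log x.1))) := tsum_congr fun x => mul_pk c s x
  refine ⟨by simpa only [mul_pk] using k1, ?_⟩
  rw [e, ← k2]

lemma pk_anti {s t : ℝ} (h : s ≤ t) (x : Nat.Primes × ℕ) : pk t x ≤ pk s x := by
  unfold pk
  have := log_nonneg' x
  refine mul_le_mul_of_nonneg_left (Real.exp_le_exp.2 ?_) (by positivity)
  nlinarith

lemma continuous_pk (x : Nat.Primes × ℕ) : Continuous fun s => pk s x := by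
  unfold pk
  fun_prop

/-- The positivity theorem at the end point. -/
theorem positivity_closed {σ0 : ℝ} (h0 : 0 < σ0) (h1 : σ0 ≤ 1) (d : ℕ) (c b : Nat.Primes × ℕ → ℝ)
    (hc : ∀ x, 0 ≤ c x) (hb : ∀ x, 0 ≤ b x)
    (hbs : ∀ s, σ0 ≤ s → Summable fun x => b x * pk s x)
    (hcs : ∀ s, 1 < s → Summable fun x => c x * pk s x)
    (g : ℝ → ℝ) (hg : ∀ s, 0 < s → AnalyticAt ℝ g s)
    (hgs : ∀ s, 1 < s → g s = (s - 1) ^ d * Real.exp (∑' x, (c x + d - d * b x) * pk s x)) :
    ∀ s, σ0 ≤ s → Summable fun x => c x * pk s x := by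
  have key := positivity h0.le h1 d c b hc hb (fun s hs => hbs s hs.le) hcs g
    (fun s hs => hg s (h0.trans hs)) hgs
  have hend : Summable fun x => c x * pk σ0 x := by
    -- a bound near the end point
    have hcont : ContinuousAt (fun s => g s / z1 s ^ d) σ0 :=
      ((hg σ0 h0).div ((z1_analytic h0).pow d) (pow_ne_zero _ (z1_pos h0).ne')).continuousAt
    have hlim : Tendsto (fun s => g s / z1 s ^ d) (𝓝[>] σ0) (𝓝 (g σ0 / z1 σ0 ^ d)) :=
      hcont.tendsto.mono_left nhdsWithin_le_nhds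
    set A : ℝ := |g σ0 / z1 σ0 ^ d| + 1 with hA
    have hApos : 0 < A := by positivity
    have hev : ∀ᶠ s in 𝓝[>] σ0, g s / z1 s ^ d < A :=
      hlim.eventually_lt_const (by rw [hA]; linarith [le_abs_self (g σ0 / z1 σ0 ^ d)])
    set B : ℝ := ∑' x, b x * pk σ0 x with hB
    have hbound : ∀ᶠ s in 𝓝[>] σ0, ∑' x, c x * pk s x ≤ Real.log A + d * B := by
      filter_upwards [hev, self_mem_nhdsWithin] with s hs1 hs2
      have hs2' : σ0 < s := hs2
      obtain ⟨k1, k2⟩ := key s hs2'
      have hBs : ∑' x, b x * pk s x ≤ B :=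
        (hbs s hs2'.le).tsum_le_tsum (fun x => mul_le_mul_of_nonneg_left (pk_anti hs2'.le x) (hb x))
          (hbs σ0 le_rfl)
      have hle : Real.exp (∑' x, c x * pk s x) ≤ Real.exp (Real.log A + d * B) := by
        rw [← k2, Real.exp_add, Real.exp_log hApos]
        have hE := Real.exp_le_exp.2 (mul_le_mul_of_nonneg_left hBs (Nat.cast_nonneg d))
        calc g s / z1 s ^ d * Real.exp (d * ∑' x, b x * pk s x)
            ≤ A * Real.exp (d * ∑' x, b x * pk s x) :=
              mul_le_mul_of_nonneg_right hs1.le (Real.exp_pos _).le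
          _ ≤ A * Real.exp (d * B) := mul_le_mul_of_nonneg_left hE hApos.le
      exact Real.exp_le_exp.1 hle
    refine summable_of_sum_le (c := Real.log A + d * B)
      (fun x => mul_nonneg (hc x) (pk_nonneg _ _)) fun F => ?_
    have hcontF : Tendsto (fun s => ∑ x ∈ F, c x * pk s x) (𝓝[>] σ0)
        (𝓝 (∑ x ∈ F, c x * pk σ0 x)) := by
      have : Continuous fun s => ∑ x ∈ F, c x * pk s x :=
        continuous_finsetSum _ fun x _ => continuous_const.mul (continuous_pk x)
      exact (this.tendsto σ0).mono_left nhdsWithin_le_nhds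
    refine le_of_tendsto hcontF ?_
    filter_upwards [hbound, self_mem_nhdsWithin] with s hs1 hs2
    refine le_trans ?_ hs1
    exact (key s hs2).1.sum_le_tsum F fun x _ => mul_nonneg (hc x) (pk_nonneg _ _)
  intro s hs
  rcases hs.eq_or_lt with rfl | hlt
  · exact hend
  · exact (key s hlt).1

/-- The bad primes. -/
lemma summable_bad {N : ℕ} (hN : 0 < N) {s : ℝ} (hs : 0 < s) :
    Summable fun x : Nat.Primes × ℕ => (if (x.1 : ℕ) ∣ N then (1 : ℝ) else 0) * pk s x := by
  have hnn : ∀ x : Nat.Primes × ℕ, 0 ≤ (if (x.1 : ℕ) ∣ N then (1 : ℝ) else 0) * pk s x := by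
    intro x
    have := pk_nonneg s x
    split_ifs <;> simp [this]
  rw [summable_prod_of_nonneg hnn]
  refine ⟨fun p => (hasSum_pk hs p).summable.mul_left (if (p : ℕ) ∣ N then (1 : ℝ) else 0), ?_⟩
  have hfin : (Function.support fun p : Nat.Primes => ∑' k : ℕ, (if (p : ℕ) ∣ N then (1 : ℝ) else 0) *
      pk s (p, k)).Finite := by
    refine Set.Finite.subset (s := (fun p : Nat.Primes => (p : ℕ)) ⁻¹' (N.primeFactors : Set ℕ)) ?_ ?_
    · exact Set.Finite.preimage (Subtype.val_injective.injOn) (Finset.finite_toSet _)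
    · intro p hp
      by_contra hcon
      apply hp
      have : ¬ (p : ℕ) ∣ N := fun h => hcon (by
        simp only [Set.mem_preimage, Finset.mem_coe, Nat.mem_primeFactors]
        exact ⟨p.2, h, hN.ne'⟩)
      simp [this]
  exact summable_of_hasFiniteSupport hfin

end Pool.Agent.H74E
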