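import Mathlib

set_option autoImplicit false

noncomputable section

namespace Pool.Agent.H74E

open Matrix ComplexConjugate

/-- The Cauchy-Schwarz inequality for the eigenvalues of a Hermitian matrix. -/
lemma herm_ineq {N : ℕ} {T : Matrix (Fin N) (Fin N) ℂ} (hT : T.IsHermitian) {r : ℕ}
    (hr : T.rank ≤ r) : T.trace.re ^ 2 ≤ r * ∑ i, ∑ j, ‖T i j‖ ^ 2 := by
  classical
  have htr : T.trace.re = ∑ i, hT.eigenvalues i := by
    rw [hT.trace_eq_sum_eigenvalues, Complex.re_sum]
    exact Finset.sum_congr rfl fun i _ => Complex.ofReal_re _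
  -- the square
  have hsq1 : (T * T).trace = ((∑ i, ∑ j, ‖T i j‖ ^ 2 : ℝ) : ℂ) := by
    rw [Matrix.trace, Complex.ofReal_sum]
    refine Finset.sum_congr rfl fun i _ => ?_
    rw [Matrix.diag_apply, Matrix.mul_apply, Complex.ofReal_sum]
    refine Finset.sum_congr rfl fun j _ => ?_
    have h1 : T j i = conj (T i j) := by
      have := hT.apply j i
      rw [← this]
      rfl
    rw [h1, Complex.mul_conj, Complex.normSq_eq_norm_sq]
  have hsq2 : (T * T).trace = ((∑ i, hT.eigenvalues i ^ 2 : ℝ) : ℂ) := by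
    have h1 := hT.spectral_theorem
    set D : Matrix (Fin N) (Fin N) ℂ := diagonal (RCLike.ofReal ∘ hT.eigenvalues) with hD
    have h2 : T * T = Unitary.conjStarAlgAut ℂ _ hT.eigenvectorUnitary (D * D) := by
      rw [map_mul, ← h1]
    have h3 : (Unitary.conjStarAlgAut ℂ (Matrix (Fin N) (Fin N) ℂ) hT.eigenvectorUnitary
        (D * D)).trace = (D * D).trace := by
      rw [Unitary.conjStarAlgAut_apply, Matrix.trace_mul_comm, ← mul_assoc]
      simp
    rw [h2, h3, hD, diagonal_mul_diagonal, trace_diagonal, Complex.ofReal_sum]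
    refine Finset.sum_congr rfl fun i _ => ?_
    simp only [Function.comp_apply]
    push_cast
    rw [sq]
    rfl
  have hsq : ∑ i, ∑ j, ‖T i j‖ ^ 2 = ∑ i, hT.eigenvalues i ^ 2 := by
    rw [hsq1] at hsq2
    exact_mod_cast hsq2
  -- restrict to the nonzero eigenvalues
  set S : Finset (Fin N) := Finset.univ.filter fun i => hT.eigenvalues i ≠ 0 with hS
  have hcard : S.card ≤ r := by
    have h1 := hT.rank_eq_card_non_zero_eigs
    rw [Fintype.card_subtype] at h1
    rw [hS, ← h1]
    exact hr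
  have e1 : ∑ i, hT.eigenvalues i = ∑ i ∈ S, hT.eigenvalues i := by
    symm
    refine Finset.sum_subset (Finset.subset_univ _) fun i _ hi => ?_
    by_contra hne
    exact hi (Finset.mem_filter.2 ⟨Finset.mem_univ _, hne⟩)
  have e2 : ∑ i ∈ S, hT.eigenvalues i ^ 2 ≤ ∑ i, hT.eigenvalues i ^ 2 :=
    Finset.sum_le_sum_of_subset_of_nonneg (Finset.subset_univ _) fun i _ _ => sq_nonneg _
  have e3 : (∑ i ∈ S, hT.eigenvalues i) ^ 2 ≤ (S.card : ℝ) * ∑ i ∈ S, hT.eigenvalues i ^ 2 :=
    sq_sum_le_card_mul_sum_sq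
  rw [htr, e1, hsq]
  have hc : (S.card : ℝ) ≤ r := by exact_mod_cast hcard
  have h0 : 0 ≤ ∑ i ∈ S, hT.eigenvalues i ^ 2 := Finset.sum_nonneg fun i _ => sq_nonneg _
  calc (∑ i ∈ S, hT.eigenvalues i) ^ 2 ≤ (S.card : ℝ) * ∑ i ∈ S, hT.eigenvalues i ^ 2 := e3
    _ ≤ r * ∑ i ∈ S, hT.eigenvalues i ^ 2 := mul_le_mul_of_nonneg_right hc h0
    _ ≤ r * ∑ i, hT.eigenvalues i ^ 2 := mul_le_mul_of_nonneg_left e2 (by positivity)

/-- The rank of a square matrix with two shifted relations between the rows. -/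
lemma rank_le_of_rel {n : ℕ} (T : Matrix (Fin (n + 2)) (Fin (n + 2)) ℂ) (c : Fin (n + 1) → ℂ)
    (hc : c (Fin.last n) = 1) (h1 : (Fin.snoc c 0 : Fin (n + 2) → ℂ) ᵥ* T = 0)
    (h2 : (Fin.cons 0 c : Fin (n + 2) → ℂ) ᵥ* T = 0) : T.rank ≤ n := by
  rw [← Matrix.rank_transpose]
  have hker1 : (Fin.snoc c 0 : Fin (n + 2) → ℂ) ∈ LinearMap.ker Tᵀ.mulVecLin := by
    rw [LinearMap.mem_ker, Matrix.mulVecLin_apply, Matrix.mulVec_transpose, h1]
  have hker2 : (Fin.cons 0 c : Fin (n + 2) → ℂ) ∈ LinearMap.ker Tᵀ.mulVecLin := by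
    rw [LinearMap.mem_ker, Matrix.mulVecLin_apply, Matrix.mulVec_transpose, h2]
  have hli : LinearIndependent ℂ ![(⟨_, hker1⟩ : LinearMap.ker Tᵀ.mulVecLin), ⟨_, hker2⟩] := by
    rw [LinearIndependent.pair_iff]
    intro s t hst
    have hst' : s • (Fin.snoc c 0 : Fin (n + 2) → ℂ) + t • (Fin.cons 0 c : Fin (n + 2) → ℂ) = 0 := by
      have := congrArg Subtype.val hst
      simpa using this
    have e1 := congrFun hst' (Fin.last (n + 1))
    have e1' : (Fin.cons 0 c : Fin (n + 2) → ℂ) (Fin.last (n + 1)) = 1 := by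
      rw [← Fin.succ_last, Fin.cons_succ, hc]
    simp only [Pi.add_apply, Pi.smul_apply, smul_eq_mul, Fin.snoc_last, mul_zero, zero_add, e1',
      mul_one, Pi.zero_apply] at e1
    refine ⟨?_, e1⟩
    have e2 := congrFun hst' (Fin.castSucc (Fin.last n))
    rw [e1] at e2
    simp only [Pi.add_apply, Pi.smul_apply, smul_eq_mul, zero_mul, add_zero, Fin.snoc_castSucc, hc,
      mul_one, Pi.zero_apply] at e2
    exact e2
  have hdim := hli.fintype_card_le_finrank
  rw [Fintype.card_fin] at hdim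
  have hrn := LinearMap.finrank_range_add_finrank_ker Tᵀ.mulVecLin
  rw [Module.finrank_fin_fun] at hrn
  unfold Matrix.rank
  omega

section matrix

variable {K : Type} [Field K] {n : ℕ}

lemma ch_zpow {M : Matrix (Fin n) (Fin n) K} (hM : IsUnit M.det) (z : ℤ) :
    ∑ l ∈ Finset.range (n + 1), M.charpoly.coeff l * (M ^ ((l : ℤ) + z)).trace = 0 := by
  have hCH := M.aeval_self_charpoly
  rw [Polynomial.aeval_eq_sum_range, M.charpoly_natDegree_eq_dim, Fintype.card_fin] at hCH
  have h1 := congrArg (fun B => (B * M ^ z).trace) hCH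
  simp only [Finset.sum_mul, Matrix.trace_sum, zero_mul, Matrix.trace_zero, Matrix.smul_mul,
    Matrix.trace_smul, smul_eq_mul] at h1
  rw [← h1]
  refine Finset.sum_congr rfl fun l _ => ?_
  rw [Matrix.zpow_add hM, zpow_natCast]

/-- If the traces of the powers of exponents `1, ..., n + 1` have absolute value at most one, then
`n ≤ 1`. -/
lemma toeplitz {M : Matrix (Fin n) (Fin n) K} (hM : M.det ≠ 0) (σ : K →+* ℂ)
    (hu : ∀ k : ℤ, conj (σ (M ^ k).trace) = σ (M ^ (-k)).trace)
    (h : ∀ k : ℕ, 0 < k → k ≤ n + 1 → ‖σ (M ^ k).trace‖ ≤ 1) : n ≤ 1 := by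
  have hM' : IsUnit M.det := isUnit_iff_ne_zero.2 hM
  set T : Matrix (Fin (n + 2)) (Fin (n + 2)) ℂ :=
    Matrix.of fun i j => σ (M ^ (((i : ℕ) : ℤ) - ((j : ℕ) : ℤ))).trace with hT
  have hherm : T.IsHermitian := by
    apply Matrix.IsHermitian.ext
    intro i j
    rw [hT]
    simp only [Matrix.of_apply]
    change conj _ = _
    rw [hu]
    congr 3
    ring
  have hrank : T.rank ≤ n := by
    refine rank_le_of_rel T (fun l => σ (M.charpoly.coeff l)) ?_ ?_ ?_
    · have h1 : M.charpoly.coeff n = 1 := by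
        have := M.charpoly_monic.coeff_natDegree
        rwa [M.charpoly_natDegree_eq_dim, Fintype.card_fin] at this
      simp only [Fin.val_last, h1, map_one]
    · funext j
      rw [Matrix.vecMul, dotProduct, Fin.sum_univ_castSucc]
      simp only [Fin.snoc_castSucc, Fin.snoc_last, zero_mul, add_zero, Pi.zero_apply, hT,
        Matrix.of_apply, Fin.val_castSucc]
      have h1 := congrArg σ (ch_zpow hM' (-((j : ℕ) : ℤ)))
      rw [map_sum, map_zero, Finset.sum_range] at h1
      rw [← h1]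
      refine Finset.sum_congr rfl fun l _ => ?_
      rw [map_mul, sub_eq_add_neg]
    · funext j
      rw [Matrix.vecMul, dotProduct, Fin.sum_univ_succ]
      simp only [Fin.cons_succ, Fin.cons_zero, zero_mul, zero_add, Pi.zero_apply, hT,
        Matrix.of_apply, Fin.val_succ]
      have h1 := congrArg σ (ch_zpow hM' (1 - ((j : ℕ) : ℤ)))
      rw [map_sum, map_zero, Finset.sum_range] at h1
      rw [← h1]
      refine Finset.sum_congr rfl fun l _ => ?_
      rw [map_mul]
      congr 4
      push_cast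
      ring
  have hineq := herm_ineq hherm hrank
  -- the trace
  have hdiag : ∀ i, T i i = (n : ℂ) := by
    intro i
    rw [hT]
    simp only [Matrix.of_apply, sub_self, zpow_zero, Matrix.trace_one, Fintype.card_fin, map_natCast]
  have htrace : T.trace.re = (n + 2) * n := by
    rw [Matrix.trace]
    simp only [Matrix.diag_apply, hdiag, Finset.sum_const, Finset.card_univ, Fintype.card_fin,
      nsmul_eq_mul]
    rw [← Nat.cast_mul, Complex.natCast_re]
    push_cast
    ring
  -- the entries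
  have hentry : ∀ i j, ‖T i j‖ ^ 2 ≤ if i = j then (n : ℝ) ^ 2 else 1 := by
    intro i j
    split_ifs with hij
    · rw [hij, hdiag, Complex.norm_natCast]
    · have hle : ‖T i j‖ ≤ 1 := by
        rcases lt_or_gt_of_ne (fun h => hij (Fin.ext h) : (i : ℕ) ≠ j) with hlt | hgt
        · have h1 : T i j = conj (T j i) := by
            have := hherm.apply i j
            rw [← this]
            rfl
          rw [h1, RCLike.norm_conj, hT]
          simp only [Matrix.of_apply]
          have e : ((j : ℕ) : ℤ) - ((i : ℕ) : ℤ) = (((j : ℕ) - (i : ℕ) : ℕ) : ℤ) := by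
            rw [Nat.cast_sub hlt.le]
          rw [e, zpow_natCast]
          exact h _ (by omega) (by have := j.2; omega)
        · rw [hT]
          simp only [Matrix.of_apply]
          have e : ((i : ℕ) : ℤ) - ((j : ℕ) : ℤ) = (((i : ℕ) - (j : ℕ) : ℕ) : ℤ) := by
            rw [Nat.cast_sub hgt.le]
          rw [e, zpow_natCast]
          exact h _ (by omega) (by have := i.2; omega)
      have h0 := norm_nonneg (T i j)
      nlinarith
  have hsum : ∑ i, ∑ j, ‖T i j‖ ^ 2 ≤ (n + 2) * ((n : ℝ) ^ 2 + (n + 1)) := by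
    have h1 : ∀ i : Fin (n + 2), ∑ j, ‖T i j‖ ^ 2 ≤ (n : ℝ) ^ 2 + (n + 1) := by
      intro i
      calc ∑ j, ‖T i j‖ ^ 2 ≤ ∑ j, (if i = j then (n : ℝ) ^ 2 else 1) :=
            Finset.sum_le_sum fun j _ => hentry i j
        _ = (n : ℝ) ^ 2 + (n + 1) := by
          rw [Finset.sum_ite, Finset.sum_const, Finset.sum_const]
          have c1 : (Finset.univ.filter fun j : Fin (n + 2) => i = j).card = 1 := by
            rw [Finset.filter_eq]
            simp
          have c2 : (Finset.univ.filter fun j : Fin (n + 2) => ¬ i = j).card = n + 1 := by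
            have := Finset.card_filter_add_card_filter_not (s := (Finset.univ : Finset (Fin (n + 2))))
              (fun j => i = j)
            rw [c1, Finset.card_univ, Fintype.card_fin] at this
            omega
          rw [c1, c2]
          simp
    calc ∑ i, ∑ j, ‖T i j‖ ^ 2 ≤ ∑ _i : Fin (n + 2), ((n : ℝ) ^ 2 + (n + 1)) :=
          Finset.sum_le_sum fun i _ => h1 i
      _ = _ := by
        rw [Finset.sum_const, Finset.card_univ, Fintype.card_fin, nsmul_eq_mul]
        push_cast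
        ring
  rw [htrace] at hineq
  have h2 : ((n : ℝ) + 2) * n * ((n : ℝ) + 2) * n ≤ n * ((n + 2) * ((n : ℝ) ^ 2 + (n + 1))) := by
    calc ((n : ℝ) + 2) * n * ((n : ℝ) + 2) * n = (((n : ℝ) + 2) * n) ^ 2 := by ring
      _ ≤ n * ∑ i, ∑ j, ‖T i j‖ ^ 2 := hineq
      _ ≤ _ := mul_le_mul_of_nonneg_left hsum (by positivity)
  by_contra hcon
  push Not at hcon
  have hn : (2 : ℝ) ≤ n := by exact_mod_cast hcon
  have hpos : (0 : ℝ) < n * (n + 2) := by positivity
  have h3 : (n : ℝ) * (n + 2) * (((n : ℝ) + 2) * n) ≤ n * (n + 2) * ((n : ℝ) ^ 2 + (n + 1)) := by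
    linarith
  have h4 := le_of_mul_le_mul_left h3 hpos
  nlinarith

end matrix

end Pool.Agent.H74E
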