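import Pool.Agent.W_7742c_h74.Arith
import Pool.Agent.W_7742c_h74.Pos
import Pool.Agent.W_7742c_h74.Toeplitz

set_option autoImplicit false

noncomputable section

namespace Pool.Agent.H74E

open Filter Topology ComplexConjugate

namespace SatakeSystem

variable {K : Type} [Field K] [NumberField K] {n : ℕ} (π : SatakeSystem K n)

/-- The trace. -/
def t (x : Nat.Primes × ℕ) : K := (π.A x.1 ^ (x.2 + 1)).trace

variable {π}

lemma good_iff {p : Nat.Primes} : π.Good p ↔ ¬ (p : ℕ) ∣ π.level :=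
  ⟨fun h => h.2, fun h => ⟨p.2, h⟩⟩

lemma t_integral {x : Nat.Primes × ℕ} (h : π.Good x.1) : IsIntegral ℤ (π.t x) := by
  have := π.integral x.1 h.1 h.2 ((x.2 + 1 : ℕ) : ℤ)
  rw [zpow_natCast] at this
  exact this

variable (π)

open Classical in
/-- The squares of the absolute values of the traces at the good primes. -/
def T (σ : K →+* ℂ) (x : Nat.Primes × ℕ) : ℝ := if π.Good x.1 then ‖σ (π.t x)‖ ^ 2 else 0

open Classical in
/-- The excess. -/
def c (x : Nat.Primes × ℕ) : ℝ := if π.Good x.1 ∧ π.t x ≠ 0 then excess (π.t x) else 0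

open Classical in
/-- The bad indices. -/
def b (x : Nat.Primes × ℕ) : ℝ := if π.Good x.1 ∧ π.t x ≠ 0 then 0 else 1

variable {π}

lemma T_nonneg (σ : K →+* ℂ) (x : Nat.Primes × ℕ) : 0 ≤ π.T σ x := by
  unfold T
  split_ifs
  · positivity
  · exact le_rfl

lemma c_nonneg (x : Nat.Primes × ℕ) : 0 ≤ π.c x := by
  unfold c
  split_ifs with h
  · exact excess_nonneg (t_integral h.1) h.2
  · exact le_rfl

lemma b_nonneg (x : Nat.Primes × ℕ) : 0 ≤ π.b x := by
  unfold b
  split_ifs
  · exact le_rfl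
  · exact zero_le_one

lemma coeff_eq (σ : K →+* ℂ) (s : ℝ) (x : Nat.Primes × ℕ) :
    π.coeff σ x.1 (x.2 + 1) / ((x.1 : ℕ) : ℝ) ^ (((x.2 : ℝ) + 1) * s) = π.T σ x * pk s x := by
  unfold coeff T pk t
  have hp : (0 : ℝ) < ((x.1 : ℕ) : ℝ) := by exact_mod_cast x.1.2.pos
  rw [Real.rpow_def_of_pos hp]
  split_ifs
  · rw [Real.exp_neg]
    push_cast
    have : Real.log ((x.1 : ℕ) : ℝ) * (((x.2 : ℝ) + 1) * s) =
        s * (((x.2 : ℝ) + 1) * Real.log ((x.1 : ℕ) : ℝ)) := by ring
    rw [this]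
    ring
  · simp

lemma sum_T (x : Nat.Primes × ℕ) : ∑ σ : K →+* ℂ, π.T σ x =
    π.c x + (Fintype.card (K →+* ℂ) : ℝ) - (Fintype.card (K →+* ℂ) : ℝ) * π.b x := by
  unfold T c b
  by_cases hg : π.Good x.1
  · by_cases h0 : π.t x = 0
    · have h1 : ¬ (π.Good x.1 ∧ π.t x ≠ 0) := fun h => h.2 h0
      rw [if_neg h1, if_neg h1]
      simp [hg, h0]
    · have h1 : π.Good x.1 ∧ π.t x ≠ 0 := ⟨hg, h0⟩
      rw [if_pos h1, if_pos h1]
      simp only [if_pos hg]
      unfold excess
      rw [Finset.sum_sub_distrib, Finset.sum_const, Finset.card_univ, nsmul_eq_mul]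
      ring
  · have h1 : ¬ (π.Good x.1 ∧ π.t x ≠ 0) := fun h => hg h.1
    rw [if_neg h1, if_neg h1]
    simp [hg]

lemma b_le (x : Nat.Primes × ℕ) : π.b x ≤ 1 := by
  unfold b
  split_ifs
  · exact zero_le_one
  · exact le_rfl

lemma c_le (x : Nat.Primes × ℕ) : π.c x ≤ ∑ σ : K →+* ℂ, π.T σ x := by
  rw [sum_T]
  have h1 := b_le (π := π) x
  have h2 : (0 : ℝ) ≤ (Fintype.card (K →+* ℂ) : ℝ) := by positivity
  nlinarith

/-- The consequence of the positivity theorem. -/
lemma summable_c (h : ∀ σ, π.RankinSelberg σ) {σ0 : ℝ} (h0 : 0 < σ0) (h1 : σ0 ≤ 1)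
    (hbs : ∀ s, σ0 ≤ s → Summable fun x => π.b x * pk s x) :
    ∀ s, σ0 ≤ s → Summable fun x => π.c x * pk s x := by
  have hT : ∀ σ : K →+* ℂ, ∀ s : ℝ, 1 < s → Summable fun x => π.T σ x * pk s x := by
    intro σ s hs
    have := (h σ).1 s hs
    simpa only [coeff_eq] using this
  choose g hg hgs using fun σ => (h σ).2
  refine positivity_closed h0 h1 (Fintype.card (K →+* ℂ)) π.c π.b c_nonneg b_nonneg hbs ?_
    (fun s => ∏ σ, g σ s) ?_ ?_
  · intro s hs
    have hsum : Summable fun x => (∑ σ : K →+* ℂ, π.T σ x) * pk s x := by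
      simp only [Finset.sum_mul]
      exact summable_sum fun σ _ => hT σ s hs
    refine Summable.of_nonneg_of_le (fun x => mul_nonneg (c_nonneg x) (pk_nonneg s x))
      (fun x => mul_le_mul_of_nonneg_right (c_le x) (pk_nonneg s x)) hsum
  · intro s hs
    have : AnalyticAt ℝ (∏ σ : K →+* ℂ, g σ) s :=
      Finset.analyticAt_prod _ fun σ _ => hg σ s hs
    refine this.congr ?_
    filter_upwards with τ
    rw [Finset.prod_apply]
  · intro s hs
    have e1 : ∀ σ : K →+* ℂ, g σ s = (s - 1) * Real.exp (∑' x, π.T σ x * pk s x) := by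
      intro σ
      rw [hgs σ s hs]
      simp only [coeff_eq]
    simp only [e1]
    rw [Finset.prod_mul_distrib, Finset.prod_const, Finset.card_univ, ← Real.exp_sum,
      ← Summable.tsum_finsetSum fun σ _ => hT σ s hs]
    congr 2
    refine tsum_congr fun x => ?_
    rw [← Finset.sum_mul, sum_T]

/-- Convergence for real part `> 1` and the consequence of the positivity theorem. -/
structure PosC (π : SatakeSystem K n) : Prop where
  one : ∀ s : ℝ, 1 < s → Summable fun x => π.c x * pk s x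
  closed : ∀ {σ0 : ℝ}, 0 < σ0 → σ0 ≤ 1 → (∀ s, σ0 ≤ s → Summable fun x => π.b x * pk s x) →
    ∀ s, σ0 ≤ s → Summable fun x => π.c x * pk s x

lemma summable_c_of {s : ℝ} (hT : ∀ σ : K →+* ℂ, Summable fun x => π.T σ x * pk s x) :
    Summable fun x => π.c x * pk s x := by
  have hsum : Summable fun x => (∑ σ : K →+* ℂ, π.T σ x) * pk s x := by
    simp only [Finset.sum_mul]
    exact summable_sum fun σ _ => hT σ
  exact Summable.of_nonneg_of_le (fun x => mul_nonneg (c_nonneg x) (pk_nonneg s x))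
    (fun x => mul_le_mul_of_nonneg_right (c_le x) (pk_nonneg s x)) hsum

lemma posC (h : ∀ σ, π.RankinSelberg σ) : π.PosC where
  one := fun s hs => summable_c_of fun σ => by
    have := (h σ).1 s hs
    simpa only [coeff_eq] using this
  closed := fun h0 h1 hbs => summable_c h h0 h1 hbs

/-- The series over the primes with zeros. -/
lemma summable_b {m : ℕ} (hm : 0 < m)
    (hz : Summable fun p : {p : ℕ // π.Zero m p} => ((p : ℕ) : ℝ) ^ (-(1 / (m : ℝ)))) :
    ∀ s, 1 / (m : ℝ) ≤ s → Summable fun x => π.b x * pk s x := by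
  classical
  intro s hs
  have hm' : (0 : ℝ) < m := by exact_mod_cast hm
  have hσ : (0 : ℝ) < 1 / (m : ℝ) := by positivity
  have hs0 : 0 < s := by linarith
  -- the indicator function of the primes with zeros
  set Z : Nat.Primes → ℝ := fun p => if π.Zero m p then ((p : ℕ) : ℝ) ^ (-(1 / (m : ℝ))) else 0 with hZ
  have hZs : Summable Z := by
    have h1 := (summable_subtype_iff_indicator (s := {p : ℕ | π.Zero m p})
      (f := fun p : ℕ => (p : ℝ) ^ (-(1 / (m : ℝ))))).1 hz
    have h2 := h1.comp_injective (i := fun p : Nat.Primes => (p : ℕ)) Subtype.val_injective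
    refine h2.congr fun p => ?_
    rw [hZ]
    simp only [Function.comp_apply, Set.indicator_apply, Set.mem_ofPred_eq]
  have hZn : ∀ p, 0 ≤ Z p := by
    intro p
    rw [hZ]
    simp only
    split_ifs
    · positivity
    · exact le_rfl
  have hpow : ∀ p : Nat.Primes, ∀ τ : ℝ, 0 ≤ τ → ((p : ℕ) : ℝ) ^ (-τ) ≤ (2 : ℝ) ^ (-τ) := by
    intro p τ hτ
    have hp : (2 : ℝ) ≤ ((p : ℕ) : ℝ) := by exact_mod_cast p.2.two_le
    exact Real.rpow_le_rpow_of_nonpos (by norm_num) hp (by linarith)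
  have hpk : ∀ x : Nat.Primes × ℕ, pk s x ≤ (((x.1 : ℕ) : ℝ) ^ (-s)) ^ (x.2 + 1) := by
    intro x
    have := pk_eq s x.1 x.2
    rw [show (x.1, x.2) = x from rfl] at this
    rw [this]
    have h1 : (0 : ℝ) ≤ (((x.1 : ℕ) : ℝ) ^ (-s)) ^ (x.2 + 1) := by positivity
    exact div_le_self h1 (by linarith [(Nat.cast_nonneg x.2 : (0 : ℝ) ≤ (x.2 : ℝ))])
  have h2lt : (2 : ℝ) ^ (-s) < 1 := Real.rpow_lt_one_of_one_lt_of_neg (by norm_num) (by linarith)
  have h2pos : (0 : ℝ) < (2 : ℝ) ^ (-s) := by positivity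
  -- the first part
  have s1 := summable_bad π.level_pos hs0
  -- the second part
  have s2 : Summable fun x : Nat.Primes × ℕ => Z x.1 * ((2 : ℝ) ^ (-s)) ^ x.2 :=
    hZs.mul_of_nonneg (summable_geometric_of_lt_one h2pos.le h2lt) hZn (fun k => by positivity)
  -- the third part
  set s' : ℝ := (1 / ((m : ℝ) + 1) + s) / 2 with hs'
  have hm1 : 1 / ((m : ℝ) + 1) < s :=
    (one_div_lt_one_div_of_lt hm' (by linarith)).trans_le hs
  have hs1 : 1 / ((m : ℝ) + 1) < s' := by rw [hs']; linarith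
  have hs2 : s' < s := by rw [hs']; linarith
  have hs0' : 0 < s' := lt_trans (by positivity) hs1
  have hms : 1 < ((m : ℝ) + 1) * s' := by
    have := mul_lt_mul_of_pos_left hs1 (show (0 : ℝ) < (m : ℝ) + 1 by linarith)
    rwa [mul_one_div_cancel (by linarith)] at this
  have h2lt' : (2 : ℝ) ^ (-(s - s')) < 1 :=
    Real.rpow_lt_one_of_one_lt_of_neg (by norm_num) (by linarith)
  have h2pos' : (0 : ℝ) < (2 : ℝ) ^ (-(s - s')) := by positivity
  have s3 : Summable fun x : Nat.Primes × ℕ => ((x.1 : ℕ) : ℝ) ^ (-(((m : ℝ) + 1) * s')) *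
      ((2 : ℝ) ^ (-(s - s'))) ^ (x.2 + 1) := by
    have hgeo : Summable fun k : ℕ => ((2 : ℝ) ^ (-(s - s'))) ^ (k + 1) :=
      ((summable_geometric_of_lt_one h2pos'.le h2lt').mul_right ((2 : ℝ) ^ (-(s - s')))).congr
        fun k => by rw [pow_succ]
    exact Summable.mul_of_nonneg (f := fun p : Nat.Primes => ((p : ℕ) : ℝ) ^ (-(((m : ℝ) + 1) * s')))
      (g := fun k : ℕ => ((2 : ℝ) ^ (-(s - s'))) ^ (k + 1)) (summable_primes_rpow hms) hgeo
      (fun p => by positivity) (fun k => by positivity)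
  refine Summable.of_nonneg_of_le (fun x => mul_nonneg (b_nonneg x) (pk_nonneg s x)) ?_
    ((s1.add s2).add s3)
  intro x
  have n1 : 0 ≤ (if (x.1 : ℕ) ∣ π.level then (1 : ℝ) else 0) * pk s x := by
    have := pk_nonneg s x
    split_ifs <;> simp [this]
  have n2 : 0 ≤ Z x.1 * ((2 : ℝ) ^ (-s)) ^ x.2 := mul_nonneg (hZn _) (by positivity)
  have n3 : 0 ≤ ((x.1 : ℕ) : ℝ) ^ (-(((m : ℝ) + 1) * s')) * ((2 : ℝ) ^ (-(s - s'))) ^ (x.2 + 1) := by
    positivity
  by_cases h1 : π.Good x.1 ∧ π.t x ≠ 0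
  · have e : π.b x = 0 := by
      unfold b
      rw [if_pos h1]
    rw [e, zero_mul]
    linarith
  have e : π.b x = 1 := by
    unfold b
    rw [if_neg h1]
  rw [e, one_mul]
  by_cases h2 : (x.1 : ℕ) ∣ π.level
  · rw [if_pos h2, one_mul] at *
    linarith
  · -- a good prime with a vanishing trace
    have hgood : π.Good x.1 := good_iff.2 h2
    have ht : π.t x = 0 := by
      by_contra hcon
      exact h1 ⟨hgood, hcon⟩
    rw [if_neg h2, zero_mul, zero_add]
    rcases Nat.lt_or_ge (x.2 + 1) (m + 1) with hlt | hge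
    · -- small exponents
      have hzero : π.Zero m x.1 := ⟨hgood, x.2 + 1, by omega, by omega, ht⟩
      have hZx : Z x.1 = ((x.1 : ℕ) : ℝ) ^ (-(1 / (m : ℝ))) := by
        rw [hZ]
        simp only
        rw [if_pos hzero]
      have : (((x.1 : ℕ) : ℝ) ^ (-s)) ^ (x.2 + 1) ≤ Z x.1 * ((2 : ℝ) ^ (-s)) ^ x.2 := by
        rw [pow_succ, mul_comm, hZx]
        refine mul_le_mul ?_ (pow_le_pow_left₀ (by positivity) (hpow x.1 s hs0.le) _)
          (by positivity) (by positivity)
        exact Real.rpow_le_rpow_of_exponent_le (by exact_mod_cast x.1.2.one_lt.le) (by linarith)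
      have := (hpk x).trans this
      linarith
    · -- large exponents
      have hp : (0 : ℝ) < ((x.1 : ℕ) : ℝ) := by exact_mod_cast x.1.2.pos
      have h1p : (1 : ℝ) ≤ ((x.1 : ℕ) : ℝ) := by exact_mod_cast x.1.2.one_lt.le
      have : (((x.1 : ℕ) : ℝ) ^ (-s)) ^ (x.2 + 1) ≤ ((x.1 : ℕ) : ℝ) ^ (-(((m : ℝ) + 1) * s')) *
          ((2 : ℝ) ^ (-(s - s'))) ^ (x.2 + 1) := by
        have e1 : (((x.1 : ℕ) : ℝ) ^ (-s)) ^ (x.2 + 1) = ((x.1 : ℕ) : ℝ) ^ (-(((x.2 + 1 : ℕ) : ℝ) * s')) *
            (((x.1 : ℕ) : ℝ) ^ (-(s - s'))) ^ (x.2 + 1) := by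
          rw [← Real.rpow_natCast, ← Real.rpow_natCast, ← Real.rpow_mul hp.le, ← Real.rpow_mul hp.le,
            ← Real.rpow_add hp]
          congr 1
          ring
        rw [e1]
        refine mul_le_mul ?_ (pow_le_pow_left₀ (by positivity) (hpow x.1 _ (by linarith)) _)
          (by positivity) (by positivity)
        apply Real.rpow_le_rpow_of_exponent_le h1p
        have : ((m : ℝ) + 1) ≤ ((x.2 + 1 : ℕ) : ℝ) := by exact_mod_cast hge
        nlinarith
      have := (hpk x).trans this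
      linarith

/-- The theorem. -/
theorem burnside (hn : 2 ≤ n) (h : ∀ σ, π.RankinSelberg σ) : π.ManyZeros (n + 1) := by
  classical
  set m := n + 1 with hm
  intro hz
  have hm0 : 0 < m := by omega
  have hm' : (0 : ℝ) < m := by exact_mod_cast hm0
  have hσ0 : (0 : ℝ) < 1 / (m : ℝ) := by positivity
  have hσ1 : 1 / (m : ℝ) ≤ 1 := by
    rw [div_le_one hm']
    exact_mod_cast hm0
  have hc := summable_c h hσ0 hσ1 (summable_b hm0 hz)
  -- the slices
  have hslice : ∀ k : ℕ, k + 1 ≤ m → Summable fun p : Nat.Primes => π.c (p, k) * (1 / (p : ℝ)) := by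
    intro k hk
    have hk' : (0 : ℝ) < (k : ℝ) + 1 := by positivity
    have h1 := hc (1 / ((k : ℝ) + 1)) (by
      apply one_div_le_one_div_of_le hk'
      exact_mod_cast hk)
    have h2 := h1.comp_injective (i := fun p : Nat.Primes => (p, k))
      (fun p q hpq => (Prod.mk.inj hpq).1)
    refine (h2.mul_left ((k : ℝ) + 1)).congr fun p => ?_
    simp only [Function.comp_apply, pk]
    have hp : (0 : ℝ) < ((p : ℕ) : ℝ) := by exact_mod_cast p.2.pos
    rw [show 1 / ((k : ℝ) + 1) * (((k : ℝ) + 1) * Real.log (p : ℕ)) = Real.log (p : ℕ) by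
      field_simp, Real.exp_neg, Real.exp_log hp]
    field_simp
  obtain ⟨ε, hε, hgap⟩ := exists_gap K
  -- the primes with zeros
  set Z : Nat.Primes → ℝ := fun p => if π.Zero m p then ((p : ℕ) : ℝ) ^ (-(1 / (m : ℝ))) else 0 with hZ
  have hZs : Summable Z := by
    have h1 := (summable_subtype_iff_indicator (s := {p : ℕ | π.Zero m p})
      (f := fun p : ℕ => (p : ℝ) ^ (-(1 / (m : ℝ))))).1 hz
    have h2 := h1.comp_injective (i := fun p : Nat.Primes => (p : ℕ)) Subtype.val_injective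
    refine h2.congr fun p => ?_
    rw [hZ]
    simp only [Function.comp_apply, Set.indicator_apply, Set.mem_ofPred_eq]
  have hZn : ∀ p, 0 ≤ Z p := by
    intro p
    rw [hZ]
    simp only
    split_ifs
    · positivity
    · exact le_rfl
  -- the bad primes
  have hbad : Summable fun p : Nat.Primes => if (p : ℕ) ∣ π.level then (1 / (p : ℝ)) else 0 := by
    apply summable_of_hasFiniteSupport
    refine Set.Finite.subset (s := (fun p : Nat.Primes => (p : ℕ)) ⁻¹'
      (π.level.primeFactors : Set ℕ)) ?_ ?_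
    · exact Set.Finite.preimage (Subtype.val_injective.injOn) (Finset.finite_toSet _)
    · intro p hp
      by_contra hcon
      apply hp
      have : ¬ (p : ℕ) ∣ π.level := fun h => hcon (by
        simp only [Set.mem_preimage, Finset.mem_coe, Nat.mem_primeFactors]
        exact ⟨p.2, h, π.level_pos.ne'⟩)
      simp [this]
  have hsum : Summable fun p : Nat.Primes => ∑ k ∈ Finset.range m,
      ε⁻¹ * (π.c (p, k) * (1 / (p : ℝ))) :=
    summable_sum fun k hk => (hslice k (by have := Finset.mem_range.1 hk; omega)).mul_left _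
  apply Nat.Primes.not_summable_one_div
  refine Summable.of_nonneg_of_le (fun p => by positivity) ?_ ((hbad.add hZs).add hsum)
  intro p
  have hp : (0 : ℝ) < ((p : ℕ) : ℝ) := by exact_mod_cast p.2.pos
  have h1p : (1 : ℝ) ≤ ((p : ℕ) : ℝ) := by exact_mod_cast p.2.one_lt.le
  have n1 : 0 ≤ (if (p : ℕ) ∣ π.level then (1 / (p : ℝ)) else 0) := by
    split_ifs
    · positivity
    · exact le_rfl
  have n3 : ∀ k ∈ Finset.range m, 0 ≤ ε⁻¹ * (π.c (p, k) * (1 / (p : ℝ))) := fun k _ =>
    mul_nonneg (by positivity) (mul_nonneg (c_nonneg _) (by positivity))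
  have n3' := Finset.sum_nonneg n3
  by_cases hd : (p : ℕ) ∣ π.level
  · have e1 : (if (p : ℕ) ∣ π.level then (1 / (p : ℝ)) else 0) = 1 / (p : ℝ) := if_pos hd
    have := hZn p
    rw [e1]
    linarith
  have hg : π.Good p := good_iff.2 hd
  by_cases hzp : π.Zero m p
  · have e1 : Z p = ((p : ℕ) : ℝ) ^ (-(1 / (m : ℝ))) := by
      rw [hZ]
      simp only
      rw [if_pos hzp]
    have e2 : 1 / ((p : ℕ) : ℝ) ≤ Z p := by
      rw [e1, one_div, ← Real.rpow_neg_one]
      exact Real.rpow_le_rpow_of_exponent_le h1p (by linarith)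
    linarith
  -- a good prime without zeros
  obtain ⟨k, hk, hpos⟩ : ∃ k, k + 1 ≤ m ∧ ε ≤ excess (π.t (p, k)) := by
    by_contra hcon
    push Not at hcon
    have σ : K →+* ℂ := Classical.choice inferInstance
    suffices n ≤ 1 by omega
    refine toeplitz (π.det_ne_zero p hg.1 hg.2) σ (fun k => π.unitary p hg.1 hg.2 k σ)
      fun k hk0 hkm => le_of_eq ?_
    have hne : (π.A p ^ k).trace ≠ 0 := fun h0 => hzp ⟨hg, k, hk0, hkm, h0⟩
    have ht : π.t (p, k - 1) = (π.A p ^ k).trace := by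
      unfold t
      rw [show (p, k - 1).2 + 1 = k by simp only; omega]
    have hint : IsIntegral ℤ (π.A p ^ k).trace := by
      rw [← ht]
      exact t_integral hg
    have h1 := hcon (k - 1) (by omega)
    rw [ht] at h1
    rcases hgap _ hint hne with h2 | h2
    · exact norm_eq_one_of_excess hint hne h2 σ
    · linarith
  have hne : π.t (p, k) ≠ 0 := fun h0 => hzp ⟨hg, k + 1, by omega, hk, h0⟩
  have hcpk : π.c (p, k) = excess (π.t (p, k)) := by
    unfold c
    rw [if_pos ⟨hg, hne⟩]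
  have h2 := Finset.single_le_sum n3 (Finset.mem_range.2 (by omega : k < m))
  have h3 : 1 / ((p : ℕ) : ℝ) ≤ ε⁻¹ * (π.c (p, k) * (1 / (p : ℝ))) := by
    rw [hcpk, ← mul_assoc]
    have : 1 ≤ ε⁻¹ * excess (π.t (p, k)) := by
      rw [inv_mul_eq_div, one_le_div hε]
      exact hpos
    have hpp : (0 : ℝ) ≤ 1 / ((p : ℕ) : ℝ) := by positivity
    nlinarith
  have := hZn p
  linarith

end SatakeSystem

end Pool.Agent.H74E
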