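import Pool.Agent.W_7742c_h74.Stmt

set_option autoImplicit false

noncomputable section

namespace Pool.Agent.H74E

open Filter Topology ComplexConjugate

section field

variable {K : Type} [Field K] [NumberField K]

lemma prod_norm_ge {t : K} (ht : IsIntegral ℤ t) (h0 : t ≠ 0) : 1 ≤ ∏ σ : K →+* ℂ, ‖σ t‖ := by
  have h1 : ∏ σ : K →+* ℂ, ‖σ t‖ = ∏ φ : K →ₐ[ℚ] ℂ, ‖φ t‖ :=
    Fintype.prod_equiv (RingHom.equivRatAlgHom K ℂ) _ _ fun φ => by
      simp [RingHom.equivRatAlgHom_apply]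
  rw [h1, ← norm_prod, ← Algebra.norm_eq_prod_embeddings ℚ ℂ t]
  have h2 : IsIntegral ℤ (Algebra.norm ℚ t) := Algebra.isIntegral_norm ℚ ht
  obtain ⟨z, hz⟩ := IsIntegrallyClosed.isIntegral_iff.1 h2
  have hz0 : z ≠ 0 := by
    rintro rfl
    rw [map_zero] at hz
    exact (Algebra.norm_ne_zero_iff.2 h0) hz.symm
  rw [← hz]
  have : ((algebraMap ℚ ℂ) ((algebraMap ℤ ℚ) z)) = (z : ℂ) := by simp
  rw [this, Complex.norm_intCast]
  exact_mod_cast Int.one_le_abs hz0

/-- The excess. -/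
def excess (t : K) : ℝ := ∑ σ : K →+* ℂ, (‖σ t‖ ^ 2 - 1)

lemma sum_log_nonneg {t : K} (ht : IsIntegral ℤ t) (h0 : t ≠ 0) :
    0 ≤ ∑ σ : K →+* ℂ, Real.log (‖σ t‖ ^ 2) := by
  have hne : ∀ σ : K →+* ℂ, ‖σ t‖ ≠ 0 := fun σ => by
    rw [norm_ne_zero_iff]
    simpa using h0
  have h1 : ∑ σ : K →+* ℂ, Real.log (‖σ t‖ ^ 2) = 2 * Real.log (∏ σ : K →+* ℂ, ‖σ t‖) := by
    rw [Real.log_prod (fun σ _ => hne σ), Finset.mul_sum]
    exact Finset.sum_congr rfl fun σ _ => by rw [Real.log_pow]; norm_num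
  rw [h1]
  have := Real.log_nonneg (prod_norm_ge ht h0)
  linarith

omit [NumberField K] in
lemma excess_term {t : K} (h0 : t ≠ 0) (σ : K →+* ℂ) :
    Real.log (‖σ t‖ ^ 2) ≤ ‖σ t‖ ^ 2 - 1 := by
  have hpos : 0 < ‖σ t‖ ^ 2 := by
    have : 0 < ‖σ t‖ := norm_pos_iff.2 (by simpa using h0)
    positivity
  exact Real.log_le_sub_one_of_pos hpos

lemma excess_nonneg {t : K} (ht : IsIntegral ℤ t) (h0 : t ≠ 0) : 0 ≤ excess t :=
  (sum_log_nonneg ht h0).trans (Finset.sum_le_sum fun σ _ => excess_term h0 σ)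

lemma norm_eq_one_of_excess {t : K} (ht : IsIntegral ℤ t) (h0 : t ≠ 0) (he : excess t = 0)
    (σ : K →+* ℂ) : ‖σ t‖ = 1 := by
  have h1 : ∑ σ : K →+* ℂ, ((‖σ t‖ ^ 2 - 1) - Real.log (‖σ t‖ ^ 2)) ≤ 0 := by
    rw [Finset.sum_sub_distrib]
    have := sum_log_nonneg ht h0
    unfold excess at he
    linarith
  have h2 : ∀ σ : K →+* ℂ, 0 ≤ (‖σ t‖ ^ 2 - 1) - Real.log (‖σ t‖ ^ 2) := fun σ =>
    sub_nonneg.2 (excess_term h0 σ)
  have h3 := (Finset.sum_eq_zero_iff_of_nonneg (fun σ _ => h2 σ)).1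
    (le_antisymm h1 (Finset.sum_nonneg fun σ _ => h2 σ)) σ (Finset.mem_univ _)
  have hpos : 0 < ‖σ t‖ ^ 2 := by
    have : 0 < ‖σ t‖ := norm_pos_iff.2 (by simpa using h0)
    positivity
  by_contra hne
  have hne' : ‖σ t‖ ^ 2 ≠ 1 := by
    intro h
    apply hne
    have h4 : 0 ≤ ‖σ t‖ := norm_nonneg _
    nlinarith
  have := Real.log_lt_sub_one_of_pos hpos hne'
  linarith

/-- The positive values of the excess are bounded below. -/
lemma exists_gap (K : Type) [Field K] [NumberField K] : ∃ ε : ℝ, 0 < ε ∧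
    ∀ t : K, IsIntegral ℤ t → t ≠ 0 → excess t = 0 ∨ ε ≤ excess t := by
  classical
  set d : ℝ := (Fintype.card (K →+* ℂ) : ℝ) with hd
  have hfin := NumberField.Embeddings.finite_of_norm_le K ℂ (d + 2)
  set F := hfin.toFinset with hF
  set G := (F.image excess).filter (fun x => 0 < x) with hG
  have key : ∀ t : K, IsIntegral ℤ t → t ≠ 0 → excess t < 1 → t ∈ F := by
    intro t ht h0 hlt
    rw [hF, Set.Finite.mem_toFinset]
    refine ⟨ht, fun φ => ?_⟩
    have h1 : ∑ σ : K →+* ℂ, ‖σ t‖ ^ 2 = excess t + d := by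
      unfold excess
      rw [Finset.sum_sub_distrib, Finset.sum_const, Finset.card_univ, nsmul_eq_mul, mul_one]
      ring
    have h2 : ‖φ t‖ ^ 2 ≤ ∑ σ : K →+* ℂ, ‖σ t‖ ^ 2 :=
      Finset.single_le_sum (f := fun σ : K →+* ℂ => ‖σ t‖ ^ 2) (fun σ _ => by positivity)
        (Finset.mem_univ φ)
    have h3 : (0 : ℝ) ≤ d := by rw [hd]; positivity
    have h4 := norm_nonneg (φ t)
    by_contra hcon
    push Not at hcon
    nlinarith
  by_cases hne : G.Nonempty
  · refine ⟨min 1 (G.min' hne), lt_min one_pos ?_, fun t ht h0 => ?_⟩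
    · have := G.min'_mem hne
      exact (Finset.mem_filter.1 this).2
    · rcases lt_or_ge (excess t) 1 with h | h
      · rcases (excess_nonneg ht h0).eq_or_lt with h1 | h1
        · exact Or.inl h1.symm
        · right
          refine (min_le_right _ _).trans (G.min'_le _ ?_)
          rw [hG, Finset.mem_filter]
          exact ⟨Finset.mem_image_of_mem _ (key t ht h0 h), h1⟩
      · right
        exact (min_le_left _ _).trans h
  · refine ⟨1, one_pos, fun t ht h0 => ?_⟩
    rcases lt_or_ge (excess t) 1 with h | h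
    · left
      by_contra hne'
      have h1 : 0 < excess t := lt_of_le_of_ne (excess_nonneg ht h0) (Ne.symm hne')
      exact hne ⟨excess t, by
        rw [hG, Finset.mem_filter]
        exact ⟨Finset.mem_image_of_mem _ (key t ht h0 h), h1⟩⟩
    · exact Or.inr h

/-- An algebraic integer all of whose conjugates have absolute value one comes from the torsion. -/
lemma exists_torsion {t : K} (ht : IsIntegral ℤ t) (h1 : ∀ σ : K →+* ℂ, ‖σ t‖ = 1) :
    ∃ u : NumberField.Units.torsion K, (((u : (NumberField.RingOfIntegers K)ˣ) :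
      NumberField.RingOfIntegers K) : K) = t := by
  obtain ⟨N, hN, hp⟩ := NumberField.Embeddings.pow_eq_one_of_norm_eq_one K ℂ ht h1
  set x : NumberField.RingOfIntegers K := ⟨t, ht⟩ with hx
  have hx' : x ^ N = 1 := by
    apply NumberField.RingOfIntegers.coe_injective
    push_cast
    exact hp
  obtain ⟨u, hu⟩ : IsUnit x := IsUnit.of_pow_eq_one hx' hN.ne'
  refine ⟨⟨u, ?_⟩, ?_⟩
  · rw [NumberField.Units.torsion, CommGroup.mem_torsion, isOfFinOrder_iff_pow_eq_one]
    refine ⟨N, hN, Units.ext ?_⟩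
    rw [Units.val_pow_eq_pow_val, hu, hx', Units.val_one]
  · change ((u : NumberField.RingOfIntegers K) : K) = t
    rw [hu]
    rfl

end field

section matrix

variable {K : Type} [Field K] {n : ℕ}

/-- Backward determinism of the traces of the powers. -/
lemma trace_back {M : Matrix (Fin n) (Fin n) K} (hM : M.det ≠ 0) {a b : ℕ}
    (h : ∀ j : ℕ, j < n → (M ^ (a + 1 + j)).trace = (M ^ (b + 1 + j)).trace) :
    (M ^ a).trace = (M ^ b).trace := by
  have hCH := M.aeval_self_charpoly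
  rw [Polynomial.aeval_eq_sum_range, M.charpoly_natDegree_eq_dim, Fintype.card_fin,
    Finset.sum_range_succ'] at hCH
  have key : ∀ c : ℕ, M.charpoly.coeff 0 * (M ^ c).trace =
      -∑ j ∈ Finset.range n, M.charpoly.coeff (j + 1) * (M ^ (c + 1 + j)).trace := by
    intro c
    have h1 := congrArg (fun B => (M ^ c * B).trace) hCH
    simp only [mul_add, Finset.mul_sum, Matrix.trace_add, Matrix.trace_sum, mul_zero,
      Matrix.trace_zero, Matrix.mul_smul, Matrix.trace_smul, smul_eq_mul, ← pow_add, pow_zero,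
      mul_one] at h1
    have h2 : ∑ j ∈ Finset.range n, M.charpoly.coeff (j + 1) * (M ^ (c + (j + 1))).trace =
        ∑ j ∈ Finset.range n, M.charpoly.coeff (j + 1) * (M ^ (c + 1 + j)).trace :=
      Finset.sum_congr rfl fun j _ => by rw [show c + (j + 1) = c + 1 + j by ring]
    rw [h2] at h1
    linear_combination h1
  have h0 : M.charpoly.coeff 0 ≠ 0 := by
    intro h0
    apply hM
    rw [M.det_eq_sign_charpoly_coeff, h0, mul_zero]
  apply mul_left_cancel₀ h0
  rw [key a, key b]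
  congr 1
  exact Finset.sum_congr rfl fun j hj => by rw [h j (Finset.mem_range.1 hj)]

end matrix

end Pool.Agent.H74E
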