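import Pool.Agent.W_MP_3283e1_nt.Landau

set_option autoImplicit false

noncomputable section

namespace Pool.Agent.H74E

open MeasureTheory ProbabilityTheory Set Filter
open scoped Topology ENNReal NNReal

/-- Landau's lemma for exponentials of moment generating functions of nonpositive variables. -/
theorem landau_exp {Ω : Type*} [MeasurableSpace Ω] {μ : Measure Ω} {X : Ω → ℝ}
    (hXm : Measurable X) (hX : ∀ᵐ ω ∂μ, X ω ≤ 0) (E : ℝ → ℝ) (σ0 σ1 : ℝ)
    (hE : ∀ σ : ℝ, σ0 < σ → AnalyticAt ℝ E σ)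
    (hint : ∀ σ : ℝ, σ1 < σ → Integrable (fun ω => Real.exp (σ * X ω)) μ)
    (heq : ∀ σ : ℝ, σ1 < σ → E σ = Real.exp (mgf X μ σ)) :
    ∀ σ : ℝ, σ0 < σ → Integrable (fun ω => Real.exp (σ * X ω)) μ ∧
      E σ = Real.exp (mgf X μ σ) := by
  -- upward closedness
  have hup : ∀ σ τ : ℝ, σ ≤ τ → Integrable (fun ω => Real.exp (σ * X ω)) μ →
      Integrable (fun ω => Real.exp (τ * X ω)) μ := by
    intro σ τ hστ h
    refine h.mono' (Real.measurable_exp.comp (hXm.const_mul _)).aestronglyMeasurable ?_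
    filter_upwards [hX] with ω hω
    rw [Real.norm_eq_abs, abs_of_pos (Real.exp_pos _)]
    apply Real.exp_le_exp.2
    nlinarith
  -- the set of good abscissas
  set T : Set ℝ := {τ : ℝ | σ0 < τ ∧ Integrable (fun ω => Real.exp (τ * X ω)) μ} with hT
  have hTne : T.Nonempty := by
    refine ⟨max σ0 σ1 + 1, ?_, hint _ ?_⟩
    · linarith [le_max_left σ0 σ1]
    · linarith [le_max_right σ0 σ1]
  have hTbd : BddBelow T := ⟨σ0, fun τ hτ => hτ.1.le⟩
  set c := sInf T with hc
  have hc0 : σ0 ≤ c := le_csInf hTne (fun τ hτ => hτ.1.le)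
  have habove : ∀ σ : ℝ, c < σ → Integrable (fun ω => Real.exp (σ * X ω)) μ := by
    intro σ hσ
    obtain ⟨τ, hτ, hτσ⟩ := exists_lt_of_csInf_lt hTne hσ
    exact hup τ σ hτσ.le hτ.2
  have hmem : ∀ σ : ℝ, c < σ → σ ∈ interior (integrableExpSet X μ) := by
    intro σ hσ
    rw [mem_interior]
    exact ⟨Ioi c, fun τ hτ => habove τ hτ, isOpen_Ioi, hσ⟩
  -- the identity theorem
  have heqc : EqOn E (fun σ => Real.exp (mgf X μ σ)) (Ioi c) := by
    have hA : AnalyticOnNhd ℝ E (Ioi c) := fun σ hσ => hE σ (lt_of_le_of_lt hc0 hσ)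
    have hB : AnalyticOnNhd ℝ (fun σ => Real.exp (mgf X μ σ)) (Ioi c) :=
      fun σ hσ => (analyticAt_mgf (hmem σ hσ)).rexp
    have hz : max c σ1 + 1 ∈ Ioi c := by
      simp only [mem_Ioi]
      linarith [le_max_left c σ1]
    refine hA.eqOn_of_preconnected_of_eventuallyEq hB isPreconnected_Ioi hz ?_
    filter_upwards [Ioi_mem_nhds (show max c σ1 < max c σ1 + 1 by linarith)] with σ hσ
    exact heq σ (lt_of_le_of_lt (le_max_right _ _) hσ)
  -- the abscissa is at most `σ0`
  have hcσ : c = σ0 := by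
    by_contra hne
    have hlt : σ0 < c := lt_of_le_of_ne hc0 (Ne.symm hne)
    have hA := hE c hlt
    -- positivity at `c`
    have hE1 : ∀ σ, c < σ → 1 ≤ E σ := by
      intro σ hσ
      rw [heqc hσ]
      exact Real.one_le_exp (mgf_nonneg)
    have hEc : 1 ≤ E c := by
      have h1 : Tendsto E (𝓝[>] c) (𝓝 (E c)) := hA.continuousAt.tendsto.mono_left nhdsWithin_le_nhds
      refine ge_of_tendsto h1 ?_
      filter_upwards [self_mem_nhdsWithin] with σ hσ using hE1 σ hσ
    have hL : AnalyticAt ℝ (fun σ => Real.log (E σ)) c := hA.log (by linarith)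
    obtain ⟨τ, hτ1, hτ2, hτ3⟩ := W3283e1.landau_step hXm hX (fun σ => Real.log (E σ)) c hL habove
      (fun σ hσ => by
        change Real.log (E σ) = _
        rw [heqc hσ, Real.log_exp]) (c - σ0) (by linarith)
    have : τ ∈ T := ⟨by linarith, hτ3⟩
    have := csInf_le hTbd this
    linarith
  intro σ hσ
  rw [← hcσ] at hσ
  exact ⟨habove σ hσ, heqc hσ⟩

/-- Landau's lemma for exponentials of general Dirichlet series with nonnegative coefficients. -/
theorem landau_series {J : Type} [Countable J] (w : J → ℝ) (hw : ∀ j, 0 ≤ w j) (l : J → ℝ)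
    (hl : ∀ j, 0 ≤ l j) (E : ℝ → ℝ) (σ0 σ1 : ℝ) (hE : ∀ σ : ℝ, σ0 < σ → AnalyticAt ℝ E σ)
    (hs : ∀ σ : ℝ, σ1 < σ → Summable fun j => w j * Real.exp (-(σ * l j)))
    (heq : ∀ σ : ℝ, σ1 < σ → E σ = Real.exp (∑' j, w j * Real.exp (-(σ * l j)))) :
    ∀ σ : ℝ, σ0 < σ → (Summable fun j => w j * Real.exp (-(σ * l j))) ∧
      E σ = Real.exp (∑' j, w j * Real.exp (-(σ * l j))) := by
  classical
  let _ : MeasurableSpace J := ⊤
  have hms : MeasurableSingletonClass J := ⟨fun _ => trivial⟩
  set μ : Measure J := (Measure.count).withDensity (fun j => ENNReal.ofReal (w j)) with hμ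
  have hden : Measurable (fun j : J => ENNReal.ofReal (w j)) := fun _ _ => trivial
  have hXm : Measurable (fun j : J => -l j) := fun _ _ => trivial
  have hI : ∀ σ : ℝ, Integrable (fun j => Real.exp (σ * (-l j))) μ ↔
      Summable fun j => w j * Real.exp (-(σ * l j)) := by
    intro σ
    rw [hμ, integrable_withDensity_iff_integrable_smul' hden
      (by filter_upwards with t using ENNReal.ofReal_lt_top), integrable_count_iff]
    refine summable_congr fun j => ?_
    rw [ENNReal.toReal_ofReal (hw j), smul_eq_mul, mul_neg, Real.norm_of_nonneg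
      (mul_nonneg (hw j) (Real.exp_pos _).le)]
  have hM : ∀ σ : ℝ, Integrable (fun j => Real.exp (σ * (-l j))) μ → mgf (fun j => -l j) μ σ =
      ∑' j, w j * Real.exp (-(σ * l j)) := by
    intro σ h1
    rw [hμ, integrable_withDensity_iff_integrable_smul' hden
      (by filter_upwards with t using ENNReal.ofReal_lt_top)] at h1
    rw [mgf, hμ, integral_withDensity_eq_integral_toReal_smul hden
      (by filter_upwards with t using ENNReal.ofReal_lt_top), integral_countable h1]
    refine tsum_congr fun j => ?_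
    rw [ENNReal.toReal_ofReal (hw j), smul_eq_mul, mul_neg]
    simp [Measure.real]
  intro σ hσ
  obtain ⟨h1, h2⟩ := landau_exp hXm (by filter_upwards with j; have := hl j; simp; exact this) E
    σ0 σ1 hE (fun τ hτ => (hI τ).2 (hs τ hτ))
    (fun τ hτ => by rw [hM τ ((hI τ).2 (hs τ hτ))]; exact heq τ hτ) σ hσ
  exact ⟨(hI σ).1 h1, by rw [h2, hM σ h1]⟩

end Pool.Agent.H74E
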