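import Mathlib

/-! Definitions for the statement: systems of Satake classes of cusp forms on `GL_n` whose
characteristic polynomials are integral over a number field, Rankin-Selberg `L`-functions. -/

noncomputable section

namespace Pool.Agent.H74E

open Filter Topology ComplexConjugate

/-- A system of Satake classes of rank `n` with coefficients in the number field `K`: invertible
matrices `A p` over `K` for the primes `p` not dividing the level (only their characteristic
polynomials matter) such that the traces of all powers `A p ^ k`, `k ∈ ℤ`, are algebraic integers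
(that is, the characteristic polynomials of `A p` and of its inverse are integral), and such that for
all embeddings `σ` of `K` the complex conjugate of `σ (tr A p ^ k)` is `σ (tr A p ^ (-k))` (this is
the case if the Satake classes `σ (A p)` are those of a unitary representation). -/
structure SatakeSystem (K : Type) [Field K] [NumberField K] (n : ℕ) where
  /-- the level -/
  level : ℕ
  level_pos : 0 < level
  /-- the Satake classes -/
  A : ℕ → Matrix (Fin n) (Fin n) K
  det_ne_zero : ∀ p, p.Prime → ¬ p ∣ level → (A p).det ≠ 0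
  integral : ∀ p, p.Prime → ¬ p ∣ level → ∀ k : ℤ, IsIntegral ℤ (A p ^ k).trace
  unitary : ∀ p, p.Prime → ¬ p ∣ level → ∀ k : ℤ, ∀ σ : K →+* ℂ,
    conj (σ (A p ^ k).trace) = σ (A p ^ (-k)).trace

namespace SatakeSystem

variable {K : Type} [Field K] [NumberField K] {n : ℕ} (π : SatakeSystem K n)

/-- The prime `p` does not divide the level. -/
def Good (p : ℕ) : Prop := p.Prime ∧ ¬ p ∣ π.level

/-- The coefficient `|σ (tr A p ^ k)|^2 / k` of `p ^ (-ks)` in the logarithm of the (partial)
Rankin-Selberg `L`-function of the conjugate system `σ (A)` and its contragredient; it is `0` if `p`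
divides the level. -/
def coeff (σ : K →+* ℂ) (p k : ℕ) : ℝ := by
  classical exact if π.Good p then ‖σ (π.A p ^ k).trace‖ ^ 2 / k else 0

/-- The analytic properties of the (partial) Rankin-Selberg `L`-function
`L(s) = exp (∑_p ∑_k |σ (tr A p ^ k)|^2 / (k p ^ (ks)))` of the conjugate system and its
contragredient, for real `s`: the series converges for `s > 1` (here `k = x.2 + 1`) and
`(s - 1) L(s)` extends to a real analytic function on `s > 0`. -/
def RankinSelberg (σ : K →+* ℂ) : Prop :=
  (∀ s : ℝ, 1 < s → Summable fun x : Nat.Primes × ℕ =>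
    π.coeff σ x.1 (x.2 + 1) / (x.1 : ℝ) ^ ((x.2 + 1) * s)) ∧
  ∃ g : ℝ → ℝ, (∀ s, 0 < s → AnalyticAt ℝ g s) ∧ ∀ s : ℝ, 1 < s → g s = (s - 1) *
    Real.exp (∑' x : Nat.Primes × ℕ, π.coeff σ x.1 (x.2 + 1) / (x.1 : ℝ) ^ ((x.2 + 1) * s))

/-- The good primes `p` with `tr A p ^ k = 0` for a positive integer `k ≤ m`. -/
def Zero (m : ℕ) (p : ℕ) : Prop := π.Good p ∧ ∃ k : ℕ, 0 < k ∧ k ≤ m ∧ (π.A p ^ k).trace = 0

/-- There are many primes `p` with `tr A p ^ k = 0` for a positive integer `k ≤ m`: the series of
their powers `p ^ (-1/m)` diverges. -/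
def ManyZeros (m : ℕ) : Prop :=
  ¬ Summable fun p : {p : ℕ // π.Zero m p} => ((p : ℕ) : ℝ) ^ (-(1 / (m : ℝ)))

/-- The sum of `p ^ (-s)` over the primes with the property `P`. -/
def primeSum (P : ℕ → Prop) (s : ℝ) : ℝ :=
  ∑' p : {p : ℕ // p.Prime ∧ P p}, ((p : ℕ) : ℝ) ^ (-s)

/-- Three times the density of the primes with `tr A p = 0` plus the density of the primes such that
`tr A p` is a root of unity is at least one (in the sense of lower Dirichlet densities). -/
def ManyUnits : Prop :=
  ∀ ε : ℝ, 0 < ε → ∀ᶠ s in 𝓝[>] (1 : ℝ), (1 - ε) * primeSum (fun _ => True) s ≤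
    3 * primeSum (fun p => π.Good p ∧ (π.A p).trace = 0) s +
      primeSum (fun p => π.Good p ∧ ∃ k : ℕ, 0 < k ∧ (π.A p).trace ^ k = 1) s

end SatakeSystem

end Pool.Agent.H74E
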