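import Pool.Agent.W_7742c_h74.Thompson

/-! Hecke traces which are zero or roots of unity, for cusp forms on `GL_n` with integral Satake
polynomials. -/

namespace Pool.Agent.Results.MP_7742d9_nt.ThirdOfTraces

open Pool.Agent.H74E

/-- Let `K` be a number field and `π` a system of Satake classes of rank `n` whose characteristic
polynomials are integral over `K`, such that the partial Rankin-Selberg `L`-functions
`L(s, π^σ × (π^σ)^∨)` of all conjugates converge for `s > 1` and `(s - 1) L` extends to a real
analytic function on `s > 0` (this is the case if all conjugates are the systems of Satake classes of
unitary cuspidal automorphic representations of `GL_n` over `ℚ`).  Then three times the (lower)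
Dirichlet density of the primes with `tr A p = 0` plus that of the primes such that `tr A p` is a root
of unity is at least one. -/
theorem result (K : Type) [Field K] [NumberField K] (n : ℕ) (π : SatakeSystem K n)
    (h : ∀ σ, π.RankinSelberg σ) : π.ManyUnits :=
  SatakeSystem.thompson h

end Pool.Agent.Results.MP_7742d9_nt.ThirdOfTraces
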