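import Pool.Agent.W_7742c_h74.Burnside
import Pool.Agent.W_7742c_h74.Siegel

set_option autoImplicit false

noncomputable section

namespace Pool.Agent.H74E

open Filter Topology ComplexConjugate

namespace SatakeSystem

/-- The indicator function. -/
def ind (P : ℕ → Prop) (p : ℕ) : ℝ := by classical exact if P p then 1 else 0

lemma ind_pos {P : ℕ → Prop} {p : ℕ} (h : P p) : ind P p = 1 := by
  unfold ind; exact if_pos h

lemma ind_neg {P : ℕ → Prop} {p : ℕ} (h : ¬ P p) : ind P p = 0 := by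
  unfold ind; exact if_neg h

lemma ind_nonneg (P : ℕ → Prop) (p : ℕ) : 0 ≤ ind P p := by
  by_cases h : P p
  · rw [ind_pos h]; norm_num
  · rw [ind_neg h]

lemma ind_le_one (P : ℕ → Prop) (p : ℕ) : ind P p ≤ 1 := by
  by_cases h : P p
  · rw [ind_pos h]
  · rw [ind_neg h]; norm_num

lemma primeSum_eq (P : ℕ → Prop) (s : ℝ) : primeSum P s =
    ∑' p : Nat.Primes, ind P p * ((p : ℕ) : ℝ) ^ (-s) := by
  classical
  have h1 : primeSum P s = ∑' n : ℕ, Set.indicator {p : ℕ | p.Prime ∧ P p}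
      (fun p : ℕ => (p : ℝ) ^ (-s)) n := by
    unfold primeSum
    exact tsum_subtype {p : ℕ | p.Prime ∧ P p} (fun p : ℕ => (p : ℝ) ^ (-s))
  have h2 : ∑' p : Nat.Primes, ind P p * ((p : ℕ) : ℝ) ^ (-s) =
      ∑' n : ℕ, Set.indicator {p : ℕ | p.Prime}
        (fun p : ℕ => ind P p * (p : ℝ) ^ (-s)) n :=
    tsum_subtype {p : ℕ | p.Prime} (fun p : ℕ => ind P p * (p : ℝ) ^ (-s))
  rw [h1, h2]
  refine tsum_congr fun n => ?_
  simp only [Set.indicator_apply, Set.mem_ofPred_eq]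
  by_cases hn : n.Prime <;> by_cases hP : P n <;> simp [hn, hP, ind]

variable {K : Type} [Field K] [NumberField K] {n : ℕ} {π : SatakeSystem K n}

/-- The pointwise bound. -/
lemma pointwise (p : Nat.Primes) : 3 / 2 * (Fintype.card (K →+* ℂ) : ℝ) -
    (3 / 2 * (Fintype.card (K →+* ℂ) : ℝ) * ind (fun p => p ∣ π.level) p +
    3 / 2 * (Fintype.card (K →+* ℂ) : ℝ) * ind (fun p => π.Good p ∧ (π.A p).trace = 0) p +
    1 / 2 * (Fintype.card (K →+* ℂ) : ℝ) *
      ind (fun p => π.Good p ∧ ∃ k : ℕ, 0 < k ∧ (π.A p).trace ^ k = 1) p) ≤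
    ∑ σ : K →+* ℂ, π.T σ (p, 0) := by
  classical
  set d : ℝ := (Fintype.card (K →+* ℂ) : ℝ) with hd
  have hd0 : 0 ≤ d := by rw [hd]; positivity
  have hTn : 0 ≤ ∑ σ : K →+* ℂ, π.T σ (p, 0) := Finset.sum_nonneg fun σ _ => T_nonneg σ _
  have i1 := ind_nonneg (fun p => π.Good p ∧ (π.A p).trace = 0) p
  have i2 := ind_nonneg (fun p => π.Good p ∧ ∃ k : ℕ, 0 < k ∧ (π.A p).trace ^ k = 1) p
  by_cases hlev : (p : ℕ) ∣ π.level
  · rw [ind_pos (P := fun p => p ∣ π.level) hlev]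
    nlinarith [mul_nonneg hd0 i1, mul_nonneg hd0 i2]
  have hg : π.Good p := good_iff.2 hlev
  rw [ind_neg (P := fun p => p ∣ π.level) hlev]
  have hT : ∀ σ : K →+* ℂ, π.T σ (p, 0) = ‖σ (π.A p).trace‖ ^ 2 := by
    intro σ
    unfold T t
    rw [if_pos hg]
    simp
  by_cases h0 : (π.A p).trace = 0
  · rw [ind_pos (P := fun p => π.Good p ∧ (π.A p).trace = 0) ⟨hg, h0⟩]
    nlinarith [mul_nonneg hd0 i2]
  rw [ind_neg (P := fun p => π.Good p ∧ (π.A p).trace = 0) (fun h => h0 h.2)]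
  by_cases hu : ∃ k : ℕ, 0 < k ∧ (π.A p).trace ^ k = 1
  · rw [ind_pos (P := fun p => π.Good p ∧ ∃ k : ℕ, 0 < k ∧ (π.A p).trace ^ k = 1) ⟨hg, hu⟩]
    obtain ⟨k, hk, hpow⟩ := hu
    have hn1 : ∀ σ : K →+* ℂ, ‖σ (π.A p).trace‖ = 1 := by
      intro σ
      have h1 : ‖σ (π.A p).trace‖ ^ k = 1 := by
        rw [← norm_pow, ← map_pow, hpow, map_one, norm_one]
      exact (pow_eq_one_iff_of_nonneg (norm_nonneg _) hk.ne').1 h1
    simp only [hT, hn1]
    rw [Finset.sum_const, Finset.card_univ, nsmul_eq_mul, ← hd]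
    linarith
  rw [ind_neg (P := fun p => π.Good p ∧ ∃ k : ℕ, 0 < k ∧ (π.A p).trace ^ k = 1) (fun h => hu h.2)]
  -- the general case: the trace bound
  have hint : IsIntegral ℤ (π.A p).trace := by
    have := π.integral p hg.1 hg.2 1
    rwa [zpow_one] at this
  have hint' : IsIntegral ℤ (π.A p ^ (-1 : ℤ)).trace := π.integral p hg.1 hg.2 (-1)
  have hunit : ∀ σ : K →+* ℂ, σ ((π.A p).trace * (π.A p ^ (-1 : ℤ)).trace) =
      ((‖σ (π.A p).trace‖ ^ 2 : ℝ) : ℂ) := by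
    intro σ
    have h1 := π.unitary p hg.1 hg.2 1 σ
    rw [zpow_one] at h1
    rw [map_mul, ← h1, Complex.mul_conj, Complex.normSq_eq_norm_sq]
  have σ0 : K →+* ℂ := Classical.choice inferInstance
  have hy0 : (π.A p).trace * (π.A p ^ (-1 : ℤ)).trace ≠ 0 := by
    intro h
    have := hunit σ0
    rw [h, map_zero] at this
    have h2 : ‖σ0 (π.A p).trace‖ ^ 2 = 0 := by exact_mod_cast this.symm
    have h3 : ‖σ0 (π.A p).trace‖ = 0 := by
      simpa using h2
    rw [norm_eq_zero, map_eq_zero] at h3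
    exact h0 h3
  have hy1 : (π.A p).trace * (π.A p ^ (-1 : ℤ)).trace ≠ 1 := by
    intro h
    have hn1 : ∀ σ : K →+* ℂ, ‖σ (π.A p).trace‖ = 1 := by
      intro σ
      have := hunit σ
      rw [h, map_one] at this
      have h2 : ‖σ (π.A p).trace‖ ^ 2 = 1 := by exact_mod_cast this.symm
      exact (pow_eq_one_iff_of_nonneg (norm_nonneg _) two_ne_zero).1 h2
    obtain ⟨k, hk, hpow⟩ := NumberField.Embeddings.pow_eq_one_of_norm_eq_one K ℂ hint hn1
    exact hu ⟨k, hk, hpow⟩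
  have := siegel (hint.mul hint') hy0 hy1 (r := fun σ => ‖σ (π.A p).trace‖ ^ 2) hunit
    (fun σ => by positivity)
  simp only [hT]
  rw [← hd] at this
  linarith

/-- The theorem. -/
theorem thompson (h : ∀ σ, π.RankinSelberg σ) : π.ManyUnits := by
  classical
  set d : ℝ := (Fintype.card (K →+* ℂ) : ℝ) with hd
  have hd1 : 1 ≤ d := by
    have σ0 : K →+* ℂ := Classical.choice inferInstance
    have : 0 < Fintype.card (K →+* ℂ) := Fintype.card_pos_iff.2 ⟨σ0⟩
    rw [hd]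
    exact_mod_cast this
  have hT : ∀ σ : K →+* ℂ, ∀ s : ℝ, 1 < s → Summable fun x => π.T σ x * pk s x := by
    intro σ s hs
    have := (h σ).1 s hs
    simpa only [coeff_eq] using this
  choose g hg hgs using fun σ => (h σ).2
  -- upper bounds for the logarithms of the `L`-functions
  have hup : ∀ σ : K →+* ℂ, ∀ᶠ s in 𝓝[>] (1 : ℝ), ∑' x, π.T σ x * pk s x ≤
      Real.log (|g σ 1| + 1) - Real.log (s - 1) := by
    intro σ
    have hc : Tendsto (g σ) (𝓝[>] 1) (𝓝 (g σ 1)) :=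
      (hg σ 1 one_pos).continuousAt.tendsto.mono_left nhdsWithin_le_nhds
    have hlt : ∀ᶠ s in 𝓝[>] (1 : ℝ), g σ s < |g σ 1| + 1 :=
      hc.eventually_lt_const (by linarith [le_abs_self (g σ 1)])
    filter_upwards [hlt, self_mem_nhdsWithin] with s hs1 hs2
    have hs2' : (1 : ℝ) < s := hs2
    have e := hgs σ s hs2'
    simp only [coeff_eq] at e
    have hpos : 0 < s - 1 := by linarith
    have e2 : Real.exp (∑' x, π.T σ x * pk s x) = g σ s / (s - 1) := by
      rw [e]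
      field_simp
    rw [← Real.log_div (by positivity) hpos.ne', ← Real.log_exp (∑' x, π.T σ x * pk s x), e2]
    have hgpos : 0 < g σ s := by
      rw [e]
      positivity
    exact Real.log_le_log (by positivity) (div_le_div_of_nonneg_right hs1.le hpos.le)
  -- lower bound for the logarithm of the zeta function
  have hlow : ∀ᶠ s in 𝓝[>] (1 : ℝ), Real.log (z1 1 / 2) - Real.log (s - 1) ≤ ∑' x, pk s x := by
    have hc : Tendsto z1 (𝓝[>] 1) (𝓝 (z1 1)) :=
      (z1_analytic one_pos).continuousAt.tendsto.mono_left nhdsWithin_le_nhds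
    have hz := z1_pos one_pos
    have hlt : ∀ᶠ s in 𝓝[>] (1 : ℝ), z1 1 / 2 < z1 s := hc.eventually_const_lt (by linarith)
    filter_upwards [hlt, self_mem_nhdsWithin] with s hs1 hs2
    have hs2' : (1 : ℝ) < s := hs2
    have hpos : 0 < s - 1 := by linarith
    have e2 : Real.exp (∑' x, pk s x) = z1 s / (s - 1) := by
      rw [z1_pk hs2']
      field_simp
    rw [← Real.log_div (by positivity) hpos.ne', ← Real.log_exp (∑' x, pk s x), e2]
    exact Real.log_le_log (by positivity) (div_le_div_of_nonneg_right hs1.le hpos.le)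
  -- the higher prime powers
  set R : ℝ := ∑' x : Nat.Primes × ℕ, ((x.1 : ℕ) : ℝ) ^ (-(2 : ℝ)) * (1 / 2) ^ x.2 with hR
  have hRs : Summable fun x : Nat.Primes × ℕ => ((x.1 : ℕ) : ℝ) ^ (-(2 : ℝ)) * (1 / 2) ^ x.2 :=
    Summable.mul_of_nonneg (f := fun p : Nat.Primes => ((p : ℕ) : ℝ) ^ (-(2 : ℝ)))
      (g := fun k : ℕ => (1 / 2 : ℝ) ^ k) (summable_primes_rpow (by norm_num))
      (summable_geometric_of_lt_one (by norm_num) (by norm_num))
      (fun p => by positivity) (fun k => by positivity)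
  have hzeta : ∀ s : ℝ, 1 < s → ∑' x, pk s x ≤ ∑' p : Nat.Primes, ((p : ℕ) : ℝ) ^ (-s) + R := by
    intro s hs
    have hsum := summable_pk hs
    have hfib : ∀ p : Nat.Primes, Summable fun k => pk s (p, k) := fun p =>
      (hasSum_pk (by linarith) p).summable
    have hfib' : ∀ p : Nat.Primes, ∑' k, pk s (p, k) = ((p : ℕ) : ℝ) ^ (-s) +
        ∑' k, pk s (p, k + 1) := by
      intro p
      rw [(hfib p).tsum_eq_zero_add]
      congr 1
      rw [pk_eq]
      simp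
    have hle : ∀ x : Nat.Primes × ℕ, pk s (x.1, x.2 + 1) ≤
        ((x.1 : ℕ) : ℝ) ^ (-(2 : ℝ)) * (1 / 2) ^ x.2 := by
      intro x
      rw [pk_eq]
      have hp : (0 : ℝ) < ((x.1 : ℕ) : ℝ) := by exact_mod_cast x.1.2.pos
      have h1p : (1 : ℝ) ≤ ((x.1 : ℕ) : ℝ) := by exact_mod_cast x.1.2.one_lt.le
      have h2p : (2 : ℝ) ≤ ((x.1 : ℕ) : ℝ) := by exact_mod_cast x.1.2.two_le
      have h1 : ((x.1 : ℕ) : ℝ) ^ (-s) ≤ ((x.1 : ℕ) : ℝ) ^ (-(1 : ℝ)) :=
        Real.rpow_le_rpow_of_exponent_le h1p (by linarith)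
      have h2 : (((x.1 : ℕ) : ℝ) ^ (-s)) ^ (x.2 + 1 + 1) ≤
          (((x.1 : ℕ) : ℝ) ^ (-(1 : ℝ))) ^ (x.2 + 1 + 1) :=
        pow_le_pow_left₀ (by positivity) h1 _
      have h3 : (((x.1 : ℕ) : ℝ) ^ (-(1 : ℝ))) ^ (x.2 + 1 + 1) =
          ((x.1 : ℕ) : ℝ) ^ (-(2 : ℝ)) * (((x.1 : ℕ) : ℝ) ^ (-(1 : ℝ))) ^ x.2 := by
        rw [show x.2 + 1 + 1 = 2 + x.2 by ring, pow_add, ← Real.rpow_natCast (_ ^ _) 2,
          ← Real.rpow_mul hp.le]
        norm_num
      have h4 : ((x.1 : ℕ) : ℝ) ^ (-(1 : ℝ)) ≤ 1 / 2 := by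
        rw [Real.rpow_neg_one, one_div]
        exact inv_anti₀ (by norm_num) h2p
      have h5 : (((x.1 : ℕ) : ℝ) ^ (-(1 : ℝ))) ^ x.2 ≤ (1 / 2) ^ x.2 :=
        pow_le_pow_left₀ (by positivity) h4 _
      have h6 : 0 ≤ (((x.1 : ℕ) : ℝ) ^ (-s)) ^ (x.2 + 1 + 1) := by positivity
      have h7 : (1 : ℝ) ≤ ((x.2 + 1 : ℕ) : ℝ) + 1 := by
        have : (0 : ℝ) ≤ ((x.2 + 1 : ℕ) : ℝ) := Nat.cast_nonneg _
        linarith
      calc (((x.1 : ℕ) : ℝ) ^ (-s)) ^ (x.2 + 1 + 1) / (((x.2 + 1 : ℕ) : ℝ) + 1)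
          ≤ (((x.1 : ℕ) : ℝ) ^ (-s)) ^ (x.2 + 1 + 1) := div_le_self h6 h7
        _ ≤ ((x.1 : ℕ) : ℝ) ^ (-(2 : ℝ)) * (((x.1 : ℕ) : ℝ) ^ (-(1 : ℝ))) ^ x.2 := h2.trans_eq h3
        _ ≤ _ := mul_le_mul_of_nonneg_left h5 (by positivity)
    have hs2 : Summable fun x : Nat.Primes × ℕ => pk s (x.1, x.2 + 1) :=
      Summable.of_nonneg_of_le (fun x => pk_nonneg _ _) hle hRs
    rw [hsum.tsum_prod]
    simp only [hfib']
    rw [(summable_primes_rpow hs).tsum_add (hs2.prod)]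
    have e : ∑' p : Nat.Primes, ∑' k, pk s (p, k + 1) = ∑' x : Nat.Primes × ℕ, pk s (x.1, x.2 + 1) :=
      hs2.tsum_prod.symm
    rw [e]
    have := hs2.tsum_le_tsum hle hRs
    linarith
  -- the lower bound for the `L`-functions
  have hTlow : ∀ s : ℝ, 1 < s → ∑' p : Nat.Primes, (∑ σ : K →+* ℂ, π.T σ (p, 0)) *
      ((p : ℕ) : ℝ) ^ (-s) ≤ ∑ σ : K →+* ℂ, ∑' x, π.T σ x * pk s x := by
    intro s hs
    have hinj : Function.Injective fun p : Nat.Primes => (p, 0) := fun p q hpq =>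
      (Prod.mk.inj hpq).1
    have h1 : ∀ σ : K →+* ℂ, Summable fun p : Nat.Primes => π.T σ (p, 0) * ((p : ℕ) : ℝ) ^ (-s) := by
      intro σ
      refine ((hT σ s hs).comp_injective hinj).congr fun p => ?_
      simp only [Function.comp_apply]
      rw [pk_eq]
      simp
    simp only [Finset.sum_mul]
    rw [Summable.tsum_finsetSum fun σ _ => h1 σ]
    refine Finset.sum_le_sum fun σ _ => ?_
    have h2 := tsum_comp_le_tsum_of_inj (hT σ s hs) (fun x => mul_nonneg (T_nonneg σ x)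
      (pk_nonneg s x)) hinj
    refine le_trans (le_of_eq ?_) h2
    refine tsum_congr fun p => ?_
    change π.T σ (p, 0) * ((p : ℕ) : ℝ) ^ (-s) = π.T σ (p, 0) * pk s (p, 0)
    rw [pk_eq]
    simp
  -- the sum over the primes tends to infinity
  have hinf : ∀ M : ℝ, ∀ᶠ s in 𝓝[>] (1 : ℝ), M ≤ ∑' p : Nat.Primes, ((p : ℕ) : ℝ) ^ (-s) := by
    intro M
    have hlim : Tendsto (fun s : ℝ => -Real.log (s - 1)) (𝓝[>] 1) atTop := by
      have h1 : Tendsto (fun s : ℝ => s - 1) (𝓝[>] 1) (𝓝[>] 0) := by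
        refine tendsto_nhdsWithin_iff.2 ⟨?_, ?_⟩
        · have : Tendsto (fun s : ℝ => s - 1) (𝓝 1) (𝓝 (1 - 1)) := by
            exact (continuous_id.sub continuous_const).tendsto 1
          rw [sub_self] at this
          exact this.mono_left nhdsWithin_le_nhds
        · filter_upwards [self_mem_nhdsWithin] with s hs
          have : (1 : ℝ) < s := hs
          exact sub_pos.2 this
      exact tendsto_neg_atBot_atTop.comp (Real.tendsto_log_nhdsGT_zero.comp h1)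
    filter_upwards [hlow, hlim.eventually_ge_atTop (M + R - Real.log (z1 1 / 2)),
      self_mem_nhdsWithin] with s h1 h2 h3
    have := hzeta s h3
    linarith
  intro ε hε
  -- a common neighbourhood
  have hall : ∀ᶠ s in 𝓝[>] (1 : ℝ), ∀ σ : K →+* ℂ, ∑' x, π.T σ x * pk s x ≤
      Real.log (|g σ 1| + 1) - Real.log (s - 1) := eventually_all.2 hup
  set C : ℝ := ∑ σ : K →+* ℂ, Real.log (|g σ 1| + 1) - d * Real.log (z1 1 / 2) + d * R +
    3 / 2 * d * ∑ p ∈ π.level.primeFactors, 1 with hC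
  filter_upwards [hall, hlow, hinf (2 * C / (d * ε)), self_mem_nhdsWithin] with s h1 h2 h3 h4
  have hs : (1 : ℝ) < s := h4
  set P : ℝ := ∑' p : Nat.Primes, ((p : ℕ) : ℝ) ^ (-s) with hP
  set ZZ : ℝ := primeSum (fun p => π.Good p ∧ (π.A p).trace = 0) s with hZZ
  set U : ℝ := primeSum (fun p => π.Good p ∧ ∃ k : ℕ, 0 < k ∧ (π.A p).trace ^ k = 1) s with hU
  have hPsum := summable_primes_rpow hs
  have hind : ∀ Q : ℕ → Prop, Summable fun p : Nat.Primes =>
      ind Q p * ((p : ℕ) : ℝ) ^ (-s) := by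
    intro Q
    refine Summable.of_nonneg_of_le (fun p => mul_nonneg (ind_nonneg _ _) (by positivity))
      (fun p => ?_) hPsum
    exact mul_le_of_le_one_left (by positivity) (ind_le_one _ _)
  have hall1 : primeSum (fun _ => True) s = P := by
    rw [primeSum_eq, hP]
    exact tsum_congr fun p => by rw [ind_pos (P := fun _ => True) trivial, one_mul]
  have hsumσ : ∑ σ : K →+* ℂ, ∑' x, π.T σ x * pk s x ≤
      ∑ σ : K →+* ℂ, Real.log (|g σ 1| + 1) - d * Real.log (s - 1) := by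
    calc ∑ σ : K →+* ℂ, ∑' x, π.T σ x * pk s x ≤
        ∑ σ : K →+* ℂ, (Real.log (|g σ 1| + 1) - Real.log (s - 1)) :=
          Finset.sum_le_sum fun σ _ => h1 σ
      _ = _ := by
        rw [Finset.sum_sub_distrib, Finset.sum_const, Finset.card_univ, nsmul_eq_mul]
  -- the bad primes
  have hB : ∑' p : Nat.Primes, ind (fun p => p ∣ π.level) p * ((p : ℕ) : ℝ) ^ (-s) ≤
      ∑ p ∈ π.level.primeFactors, 1 := by
    rw [← primeSum_eq, primeSum]
    have hset : {p : ℕ | p.Prime ∧ p ∣ π.level} = (π.level.primeFactors : Set ℕ) := by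
      ext p
      simp [Nat.mem_primeFactors, π.level_pos.ne']
    have e1 : ∑' p : {p : ℕ // p.Prime ∧ p ∣ π.level}, ((p : ℕ) : ℝ) ^ (-s) =
        ∑' p : (π.level.primeFactors : Set ℕ), ((p : ℕ) : ℝ) ^ (-s) := by
      rw [← hset]
      rfl
    rw [e1, Finset.tsum_subtype' π.level.primeFactors (fun p : ℕ => (p : ℝ) ^ (-s))]
    refine Finset.sum_le_sum fun p hp => ?_
    have h1p : (1 : ℝ) ≤ (p : ℝ) := by
      exact_mod_cast (Nat.prime_of_mem_primeFactors hp).one_lt.le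
    exact Real.rpow_le_one_of_one_le_of_nonpos h1p (by linarith)
  -- the pointwise inequality, summed
  have hmain : 3 / 2 * d * P - (3 / 2 * d * ∑' p : Nat.Primes,
      ind (fun p => p ∣ π.level) p * ((p : ℕ) : ℝ) ^ (-s) +
      3 / 2 * d * ZZ + 1 / 2 * d * U) ≤ ∑' p : Nat.Primes, (∑ σ : K →+* ℂ, π.T σ (p, 0)) *
      ((p : ℕ) : ℝ) ^ (-s) := by
    rw [hZZ, hU, primeSum_eq, primeSum_eq, hP, ← tsum_mul_left, ← tsum_mul_left, ← tsum_mul_left,
      ← tsum_mul_left, ← ((hind (fun p => p ∣ π.level)).mul_left _).tsum_add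
        ((hind (fun p => π.Good p ∧ (π.A p).trace = 0)).mul_left _),
      ← (((hind (fun p => p ∣ π.level)).mul_left _).add
        ((hind (fun p => π.Good p ∧ (π.A p).trace = 0)).mul_left _)).tsum_add
        ((hind (fun p => π.Good p ∧ ∃ k : ℕ, 0 < k ∧ (π.A p).trace ^ k = 1)).mul_left _),
      ← (hPsum.mul_left _).tsum_sub ((((hind (fun p => p ∣ π.level)).mul_left _).add
        ((hind (fun p => π.Good p ∧ (π.A p).trace = 0)).mul_left _)).add
        ((hind (fun p => π.Good p ∧ ∃ k : ℕ, 0 < k ∧ (π.A p).trace ^ k = 1)).mul_left _))]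
    have hTs : Summable fun p : Nat.Primes => (∑ σ : K →+* ℂ, π.T σ (p, 0)) *
        ((p : ℕ) : ℝ) ^ (-s) := by
      simp only [Finset.sum_mul]
      refine summable_sum fun σ _ => ?_
      have hinj : Function.Injective fun p : Nat.Primes => (p, 0) := fun p q hpq =>
        (Prod.mk.inj hpq).1
      refine ((hT σ s hs).comp_injective hinj).congr fun p => ?_
      simp only [Function.comp_apply]
      rw [pk_eq]
      simp
    refine Summable.tsum_le_tsum (fun p => ?_) ((hPsum.mul_left _).sub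
      ((((hind (fun p => p ∣ π.level)).mul_left _).add
        ((hind (fun p => π.Good p ∧ (π.A p).trace = 0)).mul_left _)).add
        ((hind (fun p => π.Good p ∧ ∃ k : ℕ, 0 < k ∧ (π.A p).trace ^ k = 1)).mul_left _))) hTs
    have hpw := pointwise (π := π) p
    rw [← hd] at hpw
    have hpp : (0 : ℝ) ≤ ((p : ℕ) : ℝ) ^ (-s) := by positivity
    have := mul_le_mul_of_nonneg_right hpw hpp
    refine le_trans (le_of_eq ?_) this
    ring
  have h5 := hTlow s hs
  have h6 := hzeta s hs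
  rw [hall1]
  have hdpos : 0 < d := by linarith
  -- collect
  have h7 : d * (Real.log (z1 1 / 2) - Real.log (s - 1)) ≤ d * (P + R) :=
    mul_le_mul_of_nonneg_left (h2.trans h6) hdpos.le
  have h8 : 3 / 2 * d * (∑' p : Nat.Primes,
      ind (fun p => p ∣ π.level) p * ((p : ℕ) : ℝ) ^ (-s)) ≤
      3 / 2 * d * ∑ p ∈ π.level.primeFactors, 1 :=
    mul_le_mul_of_nonneg_left hB (by positivity)
  have h9 : d * P ≤ 3 * d * ZZ + d * U + 2 * C := by
    rw [hC]
    linarith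
  have h10 : 2 * C ≤ d * ε * P := by
    have := mul_le_mul_of_nonneg_left h3 (by positivity : 0 ≤ d * ε)
    rwa [mul_div_cancel₀ _ (by positivity : d * ε ≠ 0)] at this
  have h11 : d * ((1 - ε) * P) ≤ d * (3 * ZZ + U) := by linarith
  exact le_of_mul_le_mul_left h11 hdpos

end SatakeSystem

end Pool.Agent.H74E
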